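import Pool.Agent.Helper60.KS.St

/-! KC-16: the bound for one class of zeros. -/

set_option autoImplicit false
set_option maxHeartbeats 4000000
open Filter Topology
open scoped Classical

namespace Pool.Agent.Helper60.KC
open Pool.Agent.Helper60.KS

lemma small (A B κ : ℝ) (hκ : 0 < κ) : ∀ᶠ X : ℝ in atTop,
    A + B * Real.log (Real.log X) ≤ κ * Real.log X := by
  have h1 : ∀ᶠ y : ℝ in atTop, A + B * Real.log y ≤ κ * y := by
    have h2 := (Real.isLittleO_log_id_atTop).bound (show 0 < κ / (2 * (|B| + 1)) by positivity)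
    filter_upwards [h2, eventually_ge_atTop (2 * |A| / κ), eventually_ge_atTop 1] with y hy hA h1
    simp only [id_eq, Real.norm_eq_abs] at hy
    rw [abs_of_pos (by linarith : (0:ℝ) < y)] at hy
    have h3 : A ≤ κ / 2 * y := by
      have := (div_le_iff₀ hκ).mp hA
      have := le_abs_self A
      linarith
    have h4 : B * Real.log y ≤ |B| * |Real.log y| := by
      rw [← abs_mul]; exact le_abs_self _
    have h5 : |B| * |Real.log y| ≤ (|B| + 1) * (κ / (2 * (|B| + 1)) * y) := by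
      apply mul_le_mul (by linarith) hy (abs_nonneg _) (by positivity)
    have h6 : (|B| + 1) * (κ / (2 * (|B| + 1)) * y) = κ / 2 * y := by
      field_simp
    linarith
  exact Real.tendsto_log_atTop.eventually h1

/-- hypotheses of `ClassBound` -/
structure Cls (ε0 δ d X x : ℝ) (Z : Finset ℂ) (c : ℂ → ℂ) (g : ℕ → ℂ) (N : ℕ) (U : Finset ℝ) : Prop where
  hx0 : ε0 ≤ x
  hx1 : x ≤ 0.4 + δ
  hs : InStrip Z (1 - x) (1 - x + δ) (X ^ (1/2 + 2 * d) + 1)
  hsp : Spaced1 Z
  hg : ∀ n, ‖g n‖ ≤ (n.divisors.card : ℝ)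
  hN0 : X ^ δ / 2 ≤ N
  hN1 : (N : ℝ) ≤ X ^ (yy x / 2 + 45 * δ)
  hD : ∀ ρ ∈ Z, 1 / (16 * Real.log X) ≤ ‖DP g N 2 ρ‖
  hc : ∀ ρ ∈ Z, ‖c ρ‖ ≤ Real.log X ^ 2
  hU : ∀ u ∈ U, Real.log X ≤ u ∧ u ≤ Real.log X + 1
  hUs : SpacedR U (1 / X ^ (1/2 + 2 * d))
  hS : ∀ u ∈ U, 1 / Real.log X ^ 4 ≤ ‖∑ ρ ∈ Z, c ρ * Complex.exp ((ρ - 1) * (u : ℂ))‖

/-- parameters -/
structure Par (ε0 δ d : ℝ) : Prop where
  h1 : 0 < ε0
  h2 : ε0 ≤ 1/100
  h3 : δ = ε0 / 10 ^ 7
  h4 : 0 < d
  h5 : d ≤ δ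

lemma Par.dpos {ε0 δ d : ℝ} (h : Par ε0 δ d) : 0 < δ := by
  rw [h.h3]; have := h.h1; positivity

lemma Par.dsmall {ε0 δ d : ℝ} (h : Par ε0 δ d) : δ ≤ 1 / 10 ^ 9 := by
  have h2 := h.h2; have h3 := h.h3
  rw [h3]; linarith

/-- facts valid for large `X`; `l = log X`, `q = log N` -/
lemma base {ε0 δ d : ℝ} (hp : Par ε0 δ d) : ∀ᶠ X : ℝ in atTop, ∀ (x : ℝ) (Z : Finset ℂ) (c : ℂ → ℂ)
    (g : ℕ → ℂ) (N : ℕ) (U : Finset ℝ), Cls ε0 δ d X x Z c g N U →
    8 ≤ X ∧ 10 ≤ Real.log X ∧ 1 ≤ N ∧ δ / 2 * Real.log X ≤ Real.log N ∧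
      Real.log N ≤ (yy x / 2 + 45 * δ) * Real.log X ∧ Real.log N ≤ Real.log X := by
  have hδ := hp.dpos
  have hδ' := hp.dsmall
  filter_upwards [small 1 0 (δ/2) (by linarith), eventually_ge_atTop (Real.exp 10), eventually_ge_atTop 8]
    with X h1 h2 h8 x Z c g N U h
  have hX : (0:ℝ) < X := by linarith
  have hl : 10 ≤ Real.log X := by
    rw [Real.le_log_iff_exp_le hX]; exact h2
  have hl0 : 0 < Real.log X := by linarith
  have hN0 := h.hN0
  have hXd : (0:ℝ) < X ^ δ := Real.rpow_pos_of_pos hX _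
  have hNpos : (0:ℝ) < N := by linarith
  have hN1 : 1 ≤ N := by
    have : 0 < N := by exact_mod_cast hNpos
    omega
  have h3 : Real.log (X ^ δ / 2) ≤ Real.log N := Real.log_le_log (by positivity) hN0
  rw [Real.log_div (by positivity) (by norm_num), Real.log_rpow hX] at h3
  have h4 : Real.log 2 ≤ 1 := by have := Real.log_two_lt_d9; linarith
  have h5 : Real.log N ≤ (yy x / 2 + 45 * δ) * Real.log X := by
    rw [← Real.log_rpow hX]; exact Real.log_le_log hNpos h.hN1
  have h6 : yy x ≤ 0.92 := by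
    unfold yy
    refine le_trans (min_le_right _ _) ?_
    have hx1 := h.hx1
    rw [div_le_iff₀ (by linarith)]
    linarith
  refine ⟨h8, hl, hN1, ?_, h5, ?_⟩
  · nlinarith
  · refine le_trans h5 ?_
    have : (yy x / 2 + 45 * δ) ≤ 1 := by linarith
    nlinarith

/-- powers in the class -/
lemma pow_class (hP : PowDP) {ε0 δ d : ℝ} (hp : Par ε0 δ d) (k : ℕ) (hk : 1 ≤ k) (ε1 : ℝ) (hε1 : 0 < ε1) :
    ∃ C1 : ℝ, 0 < C1 ∧ ∀ᶠ X : ℝ in atTop, ∀ (x : ℝ) (Z : Finset ℂ) (c : ℂ → ℂ)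
    (g : ℕ → ℂ) (N : ℕ) (U : Finset ℝ), Cls ε0 δ d X x Z c g N U →
    ∃ b : ℕ → ℂ, (∀ n, ‖b n‖ ≤ C1 * (N : ℝ) ^ ε1) ∧
      ∀ ρ ∈ Z, (1 / (16 * Real.log X)) ^ k ≤ ‖DP b (N ^ k) (2 ^ k) ρ‖ := by
  obtain ⟨C1, hC1, h⟩ := hP k ε1 hk hε1
  refine ⟨C1, hC1, ?_⟩
  filter_upwards [base hp] with X hb x Z c g N U hcl
  obtain ⟨h8, hl, hN, -⟩ := hb x Z c g N U hcl
  obtain ⟨b, hb1, hb2⟩ := h g N hN hcl.hg
  refine ⟨b, hb1, fun ρ hρ => ?_⟩
  rw [← hb2, norm_pow]
  exact pow_le_pow_left₀ (by positivity) (hcl.hD ρ hρ) k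

lemma log_add_le {a b : ℝ} (ha : 0 < a) (hb : 0 < b) :
    Real.log (a + b) ≤ Real.log 2 + Real.log a ∨ Real.log (a + b) ≤ Real.log 2 + Real.log b := by
  rcases le_total a b with h | h
  · right
    rw [← Real.log_mul (by norm_num) hb.ne']
    exact Real.log_le_log (by linarith) (by linarith)
  · left
    rw [← Real.log_mul (by norm_num) ha.ne']
    exact Real.log_le_log (by linarith) (by linarith)

/-- height -/
lemma logT {X d : ℝ} (hX : 8 ≤ X) (hd : 0 < d) :
    1 ≤ X ^ (1/2 + 2 * d) ∧ (1/2) * Real.log X ≤ Real.log (X ^ (1/2 + 2 * d) + 1) ∧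
      Real.log (X ^ (1/2 + 2 * d) + 1) ≤ (1/2 + 2 * d) * Real.log X + 1 := by
  have h1 : 1 ≤ X ^ (1/2 + 2 * d) := Real.one_le_rpow (by linarith) (by linarith)
  have hX0 : 0 < X := by linarith
  have hl : 0 < Real.log X := Real.log_pos (by linarith)
  refine ⟨h1, ?_, ?_⟩
  · calc (1/2) * Real.log X ≤ (1/2 + 2 * d) * Real.log X := by nlinarith
      _ = Real.log (X ^ (1/2 + 2 * d)) := (Real.log_rpow hX0 _).symm
      _ ≤ _ := Real.log_le_log (by linarith) (by linarith)
  · calc Real.log (X ^ (1/2 + 2 * d) + 1) ≤ Real.log (2 * X ^ (1/2 + 2 * d)) :=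
          Real.log_le_log (by linarith) (by linarith)
      _ = Real.log 2 + (1/2 + 2 * d) * Real.log X := by
          rw [Real.log_mul (by norm_num) (by linarith), Real.log_rpow hX0]
      _ ≤ _ := by have := Real.log_two_lt_d9; linarith

/-- first bound: mean values -/
lemma P1 (hMV : MVCount) (hP : PowDP) {ε0 δ d : ℝ} (hp : Par ε0 δ d) (k : ℕ) (hk : 1 ≤ k) :
    ∀ᶠ X : ℝ in atTop, ∀ (x : ℝ) (Z : Finset ℂ) (c : ℂ → ℂ) (g : ℕ → ℂ) (N : ℕ) (U : Finset ℝ),
    Cls ε0 δ d X x Z c g N U → Z.Nonempty → (k : ℝ) * Real.log N ≤ 2 * Real.log X →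
    Real.log Z.card ≤ max (2 * x * (k * Real.log N))
      (Real.log X / 2 - k * Real.log N * (1 - 2 * x)) + 40 * δ * Real.log X := by
  have hδ := hp.dpos
  have hδ' := hp.dsmall
  have hd4 := hp.h4
  have hd5 := hp.h5
  obtain ⟨C1, hC1, hpc⟩ := pow_class hP hp k hk (δ / 10) (by positivity)
  obtain ⟨C, hC, hmv⟩ := hMV (2 ^ k) (Nat.one_le_two_pow)
  filter_upwards [base hp, hpc, small (2 * k * Real.log 16 + Real.log C + 2 * Real.log C1 + 5 + Real.log 2)
    (2 * k + 2) δ hδ] with X hb hpc hsm x Z c g N U h hZ hkq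
  obtain ⟨h8, hl, hN, hq0, hq1, hq2⟩ := hb x Z c g N U h
  obtain ⟨b, hb1, hb2⟩ := hpc x Z c g N U h
  have hx0 := h.hx0
  have hx1 := h.hx1
  have h1 := hp.h1
  obtain ⟨hT1, hT2, hT3⟩ := logT h8 hd4
  have hN' : (1:ℝ) ≤ N := by exact_mod_cast hN
  have hQ : 1 ≤ N ^ k := Nat.one_le_pow _ _ (by omega)
  have hl0 : 0 < Real.log X := by linarith
  have hkk : (1:ℝ) ≤ k := by exact_mod_cast hk
  have hZc : (0:ℝ) < Z.card := by exact_mod_cast hZ.card_pos
  set l := Real.log X with hldef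
  set q := Real.log N with hqdef
  set T := X ^ (1/2 + 2 * d) + 1 with hTdef
  have hq00 : 0 ≤ q := Real.log_nonneg hN'
  have hVpos : 0 < (1 / (16 * l)) ^ k := by positivity
  have hB : 0 < C1 * (N:ℝ) ^ (δ / 10) := by positivity
  have hmain := hmv Z b (N ^ k) (C1 * (N:ℝ) ^ (δ/10)) ((1 / (16 * l)) ^ k) (1 - x) (1 - x + δ) T (1 / l) hQ
    (by linarith) (by positivity) (by rw [div_le_div_iff₀ hl0 (by norm_num)]; linarith) (by linarith)
    (by linarith) (by linarith) (by have := hp.h3; linarith) hVpos hB.le hb1 h.hs h.hsp hb2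
  have hQpos : (0:ℝ) < ((N ^ k : ℕ) : ℝ) := by exact_mod_cast hQ
  have hlogQ : Real.log ((N ^ k : ℕ) : ℝ) = k * q := by push_cast; rw [Real.log_pow]
  have hlg := Real.log_le_log (by positivity) hmain
  have hTQ : (0:ℝ) < T + ((N ^ k : ℕ) : ℝ) := by linarith
  rw [Real.log_mul hZc.ne' (by positivity), Real.log_pow, Real.log_pow, Real.log_div (by norm_num) (by positivity),
    Real.log_one, Real.log_mul (by norm_num) hl0.ne', Real.log_mul (by positivity) (by positivity),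
    Real.log_mul (by positivity) hTQ.ne', Real.log_div (by positivity) (by positivity), Real.log_mul hC.ne' (by positivity),
    Real.log_pow, Real.log_mul hC1.ne' (by positivity), Real.log_rpow (by linarith), Real.log_rpow hQpos,
    Real.log_pow, Real.log_div (by norm_num) hl0.ne', Real.log_one, hlogQ] at hlg
  have hqq : (2 * (1 / l)) * (k * q) ≤ 4 := by
    have : (2 * (1 / l)) * (k * q) = 2 * (k * q) / l := by ring
    rw [this, div_le_iff₀ hl0]; linarith
  have hexp : (1 - 2 * (1 - x) + 2 * (1 / l)) * (k * q) = -(k * q * (1 - 2 * x)) + (2 * (1 / l)) * (k * q) := by ring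
  rw [hexp] at hlg
  have hdq : δ / 10 * q ≤ δ / 10 * l := mul_le_mul_of_nonneg_left hq2 (by positivity)
  simp only [Nat.cast_ofNat] at hlg
  rw [← hqdef] at hlg
  rcases log_add_le (show 0 < T by linarith) hQpos with hc | hc
  · refine le_trans ?_ (add_le_add_left (le_max_right _ _) _)
    have hdl : d * l ≤ δ * l := mul_le_mul_of_nonneg_right hd5 hl0.le
    have hdl0 : 0 ≤ δ * l := by positivity
    linarith
  · refine le_trans ?_ (add_le_add_left (le_max_left _ _) _)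
    rw [hlogQ] at hc
    have hdl0 : 0 ≤ δ * l := by positivity
    linarith

/-- second bound: Huxley -/
lemma P2 (hMV : HuxleyCount) (hP : PowDP) {ε0 δ d : ℝ} (hp : Par ε0 δ d) (k : ℕ) (hk : 1 ≤ k) :
    ∀ᶠ X : ℝ in atTop, ∀ (x : ℝ) (Z : Finset ℂ) (c : ℂ → ℂ) (g : ℕ → ℂ) (N : ℕ) (U : Finset ℝ),
    Cls ε0 δ d X x Z c g N U → Z.Nonempty → (k : ℝ) * Real.log N ≤ 2 * Real.log X →
    Real.log Z.card ≤ max (2 * x * (k * Real.log N))
      (Real.log X / 2 - k * Real.log N * (2 - 6 * x)) + 40 * δ * Real.log X := by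
  have hδ := hp.dpos
  have hδ' := hp.dsmall
  have hd4 := hp.h4
  have hd5 := hp.h5
  obtain ⟨C1, hC1, hpc⟩ := pow_class hP hp k hk (δ / 10) (by positivity)
  obtain ⟨C, hC, hmv⟩ := hMV (2 ^ k) (Nat.one_le_two_pow)
  filter_upwards [base hp, hpc, small (2 * k * Real.log 16 + Real.log C + 2 * Real.log C1 + 2 * Real.log 2)
    (2 * k + 1) δ hδ, small (6 * k * Real.log 16 + Real.log C + 6 * Real.log C1 + 1 + 2 * Real.log 2)
    (6 * k + 1) δ hδ] with X hb hpc hsm1 hsm2 x Z c g N U h hZ hkq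
  obtain ⟨h8, hl, hN, hq0, hq1, hq2⟩ := hb x Z c g N U h
  obtain ⟨b, hb1, hb2⟩ := hpc x Z c g N U h
  have hx0 := h.hx0
  have hx1 := h.hx1
  have h1 := hp.h1
  obtain ⟨hT1, hT2, hT3⟩ := logT h8 hd4
  have hN' : (1:ℝ) ≤ N := by exact_mod_cast hN
  have hQ : 1 ≤ N ^ k := Nat.one_le_pow _ _ (by omega)
  have hl0 : 0 < Real.log X := by linarith
  have hkk : (1:ℝ) ≤ k := by exact_mod_cast hk
  have hZc : (0:ℝ) < Z.card := by exact_mod_cast hZ.card_pos
  have hT4 : Real.log (X ^ (1/2 + 2 * d) + 1 + 2) ≤ 2 * Real.log X := by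
    rw [← Real.log_rpow (by linarith : (0:ℝ) < X)]
    apply Real.log_le_log (by linarith)
    have e1 : X ^ (1/2 + 2 * d) ≤ X := by
      calc X ^ (1/2 + 2 * d) ≤ X ^ (1:ℝ) := Real.rpow_le_rpow_of_exponent_le (by linarith) (by linarith)
        _ = X := Real.rpow_one _
    have e2 : X ^ (2:ℝ) = X * X := by rw [show (2:ℝ) = ((2:ℕ):ℝ) by norm_num, Real.rpow_natCast]; ring
    rw [e2]; nlinarith
  set l := Real.log X with hldef
  set q := Real.log N with hqdef
  set T := X ^ (1/2 + 2 * d) + 1 with hTdef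
  have hq00 : 0 ≤ q := Real.log_nonneg hN'
  have hVpos : 0 < (1 / (16 * l)) ^ k := by positivity
  have hB : 0 < C1 * (N:ℝ) ^ (δ / 10) := by positivity
  have hmain := hmv Z b (N ^ k) (C1 * (N:ℝ) ^ (δ/10)) ((1 / (16 * l)) ^ k) (1 - x) (1 - x + δ) T hQ
    (by linarith) (by linarith)
    (by linarith) (by linarith) (by have := hp.h3; linarith) hVpos hB hb1 h.hs h.hsp hb2
  have hQpos : (0:ℝ) < ((N ^ k : ℕ) : ℝ) := by exact_mod_cast hQ
  have hlogQ : Real.log ((N ^ k : ℕ) : ℝ) = k * q := by push_cast; rw [Real.log_pow]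
  have hlT : 0 < Real.log (T + 2) := Real.log_pos (by linarith)
  have hllT : Real.log (Real.log (T + 2)) ≤ Real.log 2 + Real.log l := by
    rw [← Real.log_mul (by norm_num) hl0.ne']
    exact Real.log_le_log hlT hT4
  have hlg := Real.log_le_log (by positivity) hmain
  have hTp : 0 < T := by linarith
  have hin : (0:ℝ) < T * ((C1 * (N:ℝ) ^ (δ / 10)) ^ 4 * ((N ^ k : ℕ) : ℝ) ^ (2 - 4 * (1 - x)) / ((1 / (16 * l)) ^ k) ^ 4) := by
    positivity
  have hlogin : Real.log (T * ((C1 * (N:ℝ) ^ (δ / 10)) ^ 4 * ((N ^ k : ℕ) : ℝ) ^ (2 - 4 * (1 - x)) / ((1 / (16 * l)) ^ k) ^ 4)) =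
      Real.log T + (4 * (Real.log C1 + δ / 10 * q) + (2 - 4 * (1 - x)) * (k * q) + 4 * (k * (Real.log 16 + Real.log l))) := by
    rw [Real.log_mul hTp.ne' (by positivity), Real.log_div (by positivity) (by positivity),
      Real.log_mul (by positivity) (by positivity), Real.log_pow, Real.log_pow, Real.log_pow,
      Real.log_mul hC1.ne' (by positivity), Real.log_rpow (by linarith), Real.log_rpow hQpos,
      Real.log_div (by norm_num) (by positivity), Real.log_one, Real.log_mul (by norm_num) hl0.ne', hlogQ]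
    simp only [Nat.cast_ofNat]
    rw [← hqdef]
    ring
  rw [Real.log_mul (by positivity) (by positivity), Real.log_mul (by positivity) hlT.ne', Real.log_mul hC.ne' (by positivity),
    Real.log_div (by positivity) (by positivity), Real.log_mul (by positivity) (by positivity),
    Real.log_pow, Real.log_mul hC1.ne' (by positivity), Real.log_rpow (by linarith), Real.log_rpow hQpos,
    Real.log_pow, Real.log_pow, Real.log_div (by norm_num) (by positivity), Real.log_one,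
    Real.log_mul (by norm_num) hl0.ne', hlogQ] at hlg
  have hdq : δ / 10 * q ≤ δ / 10 * l := mul_le_mul_of_nonneg_left hq2 (by positivity)
  simp only [Nat.cast_ofNat] at hlg
  rw [← hqdef] at hlg
  have hdl0 : 0 ≤ δ * l := by positivity
  have hdl : d * l ≤ δ * l := mul_le_mul_of_nonneg_right hd5 hl0.le
  rcases log_add_le one_pos hin with hc | hc
  · refine le_trans ?_ (add_le_add_left (le_max_left _ _) _)
    rw [Real.log_one] at hc
    linarith
  · refine le_trans ?_ (add_le_add_left (le_max_right _ _) _)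
    rw [hlogin] at hc
    linarith

/-- third bound -/
lemma P3 {ε0 δ d : ℝ} (hp : Par ε0 δ d) :
    ∀ᶠ X : ℝ in atTop, ∀ (x : ℝ) (Z : Finset ℂ) (c : ℂ → ℂ) (g : ℕ → ℂ) (N : ℕ) (U : Finset ℝ),
    Cls ε0 δ d X x Z c g N U → U.Nonempty →
    Z.Nonempty ∧ (x - 40 * δ) * Real.log X ≤ Real.log Z.card := by
  have hδ := hp.dpos
  have hδ' := hp.dsmall
  filter_upwards [base hp, small 0 6 δ hδ] with X hb hsm x Z c g N U h hU
  obtain ⟨h8, hl, hN, hq0, hq1, hq2⟩ := hb x Z c g N U h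
  obtain ⟨u, hu⟩ := hU
  have hu1 := h.hS u hu
  obtain ⟨hu2, hu3⟩ := h.hU u hu
  have hl0 : 0 < Real.log X := by linarith
  have hx0 := h.hx0
  have h1 := hp.h1
  have h3 := hp.h3
  have hterm : ∀ ρ ∈ Z, ‖c ρ * Complex.exp ((ρ - 1) * (u : ℂ))‖ ≤
      Real.log X ^ 2 * Real.exp ((-x + δ) * Real.log X) := by
    intro ρ hρ
    rw [norm_mul, Complex.norm_exp]
    apply mul_le_mul (h.hc ρ hρ) _ (Real.exp_pos _).le (by positivity)
    apply Real.exp_le_exp.mpr
    have e : ((ρ - 1) * (u:ℂ)).re = (ρ.re - 1) * u := by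
      simp [Complex.mul_re]
    rw [e]
    have h4 := (h.hs ρ hρ).2.1
    have : (ρ.re - 1) * u ≤ (-x + δ) * u := by
      apply mul_le_mul_of_nonneg_right (by linarith) (by linarith)
    have h5 : (-x + δ) * u ≤ (-x + δ) * Real.log X := by
      apply mul_le_mul_of_nonpos_left hu2 (by linarith)
    linarith
  have hsum : 1 / Real.log X ^ 4 ≤ Z.card * (Real.log X ^ 2 * Real.exp ((-x + δ) * Real.log X)) := by
    refine le_trans hu1 ?_
    refine le_trans (norm_sum_le _ _) ?_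
    refine le_trans (Finset.sum_le_sum hterm) ?_
    simp
  have hZ : Z.Nonempty := by
    rw [Finset.nonempty_iff_ne_empty]
    intro hZe
    rw [hZe] at hsum
    simp at hsum
    have : 0 < Real.log X ^ 4 := by positivity
    linarith
  refine ⟨hZ, ?_⟩
  have hZc : (0:ℝ) < Z.card := by exact_mod_cast hZ.card_pos
  have hlg := Real.log_le_log (by positivity) hsum
  rw [Real.log_div (by norm_num) (by positivity), Real.log_one, Real.log_pow, Real.log_mul hZc.ne' (by positivity),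
    Real.log_mul (by positivity) (by positivity), Real.log_pow, Real.log_exp] at hlg
  simp only [Nat.cast_ofNat] at hlg
  have hdl0 : 0 ≤ δ * Real.log X := by positivity
  linarith

lemma T_le {X d : ℝ} (hX : 8 ≤ X) (hl : 10 ≤ Real.log X) (hd : 0 < d) (hd1 : d ≤ 1 / 10 ^ 9) :
    X ^ (1/2 + 2 * d) + 1 ≤ X := by
  obtain ⟨h1, -, h3⟩ := logT hX hd
  have hX0 : (0:ℝ) < X := by linarith
  rw [← Real.log_le_log_iff (by linarith) hX0]
  have : 2 * d * Real.log X ≤ 2 * (1 / 10 ^ 9) * Real.log X := by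
    apply mul_le_mul_of_nonneg_right (by linarith) (by linarith)
  linarith

/-- fourth bound: S-lemma -/
lemma P4 (hS : SLemma) (hP : PowDP) {ε0 δ d : ℝ} (hp : Par ε0 δ d) (k : ℕ) (hk : 1 ≤ k) :
    ∀ᶠ X : ℝ in atTop, ∀ (x : ℝ) (Z : Finset ℂ) (c : ℂ → ℂ) (g : ℕ → ℂ) (N : ℕ) (U : Finset ℝ),
    Cls ε0 δ d X x Z c g N U → Z.Nonempty → U.Nonempty → (k : ℝ) * Real.log N ≤ 2 * Real.log X →
    Real.log Z.card + 2 * x * (k * Real.log N) ≤ (2 * x - 50 * δ) * Real.log X →
    Real.log U.card ≤ max (Real.log X / 2 + Real.log Z.card - 2 * x * Real.log X - k * Real.log N * (1 - 2 * x))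
      (4 * (Real.log X / 2 + Real.log Z.card - 2 * x * Real.log X - k * Real.log N * (1 - 2 * x)) -
        Real.log X / 2) + 40 * δ * Real.log X := by
  have hδ := hp.dpos
  have hδ' := hp.dsmall
  have hd4 := hp.h4
  have hd5 := hp.h5
  obtain ⟨C1, hC1, hpc⟩ := pow_class hP hp k hk (δ / 10) (by positivity)
  obtain ⟨C, hC, hmv⟩ := hS (2 ^ k) (δ / 10) (Nat.one_le_two_pow) (by positivity)
  filter_upwards [base hp, hpc, small (2 * k * Real.log 16 + Real.log C + 2 * Real.log C1 + 2 * Real.log 2 + 1)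
    (2 * k + 12) δ hδ, small (2 * k * Real.log 16 + Real.log C + 2 * Real.log C1 + Real.log 2)
    (2 * k + 12) δ hδ] with X hb hpc hsm1 hsm2 x Z c g N U h hZ hU hkq hcond
  obtain ⟨h8, hl, hN, hq0, hq1, hq2⟩ := hb x Z c g N U h
  obtain ⟨b, hb1, hb2⟩ := hpc x Z c g N U h
  have hx0 := h.hx0
  have hx1 := h.hx1
  have h1 := hp.h1
  have h3 := hp.h3
  obtain ⟨hT1, hT2, hT3⟩ := logT h8 hd4
  have hN' : (1:ℝ) ≤ N := by exact_mod_cast hN
  have hQ : 1 ≤ N ^ k := Nat.one_le_pow _ _ (by omega)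
  have hl0 : 0 < Real.log X := by linarith
  have hkk : (1:ℝ) ≤ k := by exact_mod_cast hk
  have hZc : (0:ℝ) < Z.card := by exact_mod_cast hZ.card_pos
  have hUc : (0:ℝ) < U.card := by exact_mod_cast hU.card_pos
  have hTX := T_le h8 hl hd4 (by linarith)
  have hX0 : (0:ℝ) < X := by linarith
  have hQpos : (0:ℝ) < ((N ^ k : ℕ) : ℝ) := by exact_mod_cast hQ
  have hlogQ : Real.log ((N ^ k : ℕ) : ℝ) = k * Real.log N := by push_cast; rw [Real.log_pow]
  have hQX : ((N ^ k : ℕ) : ℝ) ≤ X ^ 2 := by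
    rw [← Real.log_le_log_iff hQpos (by positivity), hlogQ, Real.log_pow]
    simpa using hkq
  have hspT : SpacedR U (1 / (X ^ (1/2 + 2 * d) + 1)) := by
    intro u hu u' hu' hne
    refine le_trans ?_ (h.hUs u hu u' hu' hne)
    apply one_div_le_one_div_of_le (by linarith) (by linarith)
  set l := Real.log X with hldef
  set q := Real.log N with hqdef
  set T := X ^ (1/2 + 2 * d) + 1 with hTdef
  have hq00 : 0 ≤ q := Real.log_nonneg hN'
  have hVpos : 0 < (1 / (16 * l)) ^ k := by positivity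
  have hB : 0 < C1 * (N:ℝ) ^ (δ / 10) := by positivity
  have hTp : 0 < T := by linarith
  have hmain := hmv X T (1 - x) (1 - x + δ) (C1 * (N:ℝ) ^ (δ/10)) ((1 / (16 * l)) ^ k) (l ^ 2) (1 / l ^ 4) Z c b (N ^ k) U
    h8 (by linarith) hTX hQ hQX (by linarith) (by linarith) (by linarith) (by linarith) hVpos hB.le (by positivity)
    (by positivity) hb1 h.hs h.hsp hb2 h.hc h.hU hspT h.hS
  set P : ℝ := C * X ^ (δ / 10) * Z.card * (l ^ 2) ^ 2 * (C1 * (N:ℝ) ^ (δ/10)) ^ 2 * T * X ^ (2 * (1 - x + δ - 1)) *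
    ((N ^ k : ℕ) : ℝ) ^ (-2 * (1 - x)) with hPdef
  set D : ℝ := (1 / l ^ 4) ^ 2 * ((1 / (16 * l)) ^ k) ^ 2 with hDdef
  have hPp : 0 < P := by positivity
  have hDp : 0 < D := by positivity
  set Q : ℝ := ((N ^ k : ℕ) : ℝ) with hQdef
  have hlogP : Real.log P = Real.log C + δ / 10 * l + Real.log Z.card + 4 * Real.log l +
      2 * (Real.log C1 + δ / 10 * q) + Real.log T + 2 * (-x + δ) * l - 2 * (1 - x) * (k * q) := by
    rw [hPdef, Real.log_mul (by positivity) (by positivity), Real.log_mul (by positivity) (by positivity),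
      Real.log_mul (by positivity) hTp.ne', Real.log_mul (by positivity) (by positivity),
      Real.log_mul (by positivity) (by positivity), Real.log_mul (by positivity) hZc.ne',
      Real.log_mul hC.ne' (by positivity), Real.log_pow, Real.log_pow, Real.log_pow, Real.log_mul hC1.ne' (by positivity),
      Real.log_rpow hX0, Real.log_rpow hX0, Real.log_rpow (by linarith), Real.log_rpow hQpos, hlogQ]
    simp only [Nat.cast_ofNat]
    rw [← hqdef]
    ring
  have hlogD : Real.log D = -(8 * Real.log l) - 2 * (k * (Real.log 16 + Real.log l)) := by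
    rw [hDdef, Real.log_mul (by positivity) (by positivity), Real.log_pow, Real.log_pow, Real.log_pow,
      Real.log_div (by norm_num) (by positivity), Real.log_div (by norm_num) (by positivity), Real.log_pow,
      Real.log_one, Real.log_mul (by norm_num) hl0.ne']
    simp only [Nat.cast_ofNat]
    ring
  have hdq : δ / 10 * q ≤ δ / 10 * l := mul_le_mul_of_nonneg_left hq2 (by positivity)
  have hdl0 : 0 ≤ δ * l := by positivity
  have hdl : d * l ≤ δ * l := mul_le_mul_of_nonneg_right hd5 hl0.le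
  have hc1 : P * Q ^ 2 / T ≤ D / 2 := by
    rw [← Real.log_le_log_iff (by positivity) (by positivity), Real.log_div (by positivity) hTp.ne',
      Real.log_mul hPp.ne' (by positivity), Real.log_pow, Real.log_div hDp.ne' (by norm_num), hlogP, hlogD, hlogQ]
    simp only [Nat.cast_ofNat]
    linarith
  set M' : ℝ := 1 + ((U.card : ℝ) ^ 3 / T) ^ (1/4 : ℝ) with hM'def
  have hM'p : 0 < M' := by positivity
  have hc2 : D * U.card ≤ 2 * P * Q * M' := by
    have e1 : D * (U.card : ℝ) ^ 2 ≤ P * (U.card * Q * M' + (U.card : ℝ) ^ 2 * Q ^ 2 / T) := by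
      calc D * (U.card : ℝ) ^ 2 = (U.card : ℝ) ^ 2 * (1 / l ^ 4) ^ 2 * ((1 / (16 * l)) ^ k) ^ 2 := by
            rw [hDdef]; ring
        _ ≤ _ := hmain
    have e2 : P * (U.card * Q * M' + (U.card : ℝ) ^ 2 * Q ^ 2 / T) =
        U.card * (P * Q * M') + (U.card : ℝ) ^ 2 * (P * Q ^ 2 / T) := by ring
    have e3 : (U.card : ℝ) ^ 2 * (P * Q ^ 2 / T) ≤ (U.card : ℝ) ^ 2 * (D / 2) :=
      mul_le_mul_of_nonneg_left hc1 (by positivity)
    have e4 : U.card * (D * U.card) ≤ U.card * (2 * P * Q * M') := by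
      rw [e2] at e1; linarith
    exact le_of_mul_le_mul_left e4 hUc
  have hlg := Real.log_le_log (by positivity) hc2
  rw [Real.log_mul hDp.ne' hUc.ne', Real.log_mul (by positivity) hM'p.ne', Real.log_mul (by positivity) hQpos.ne',
    Real.log_mul (by norm_num) hPp.ne', hlogP, hlogD, hlogQ] at hlg
  rcases log_add_le one_pos (show 0 < ((U.card : ℝ) ^ 3 / T) ^ (1/4 : ℝ) by positivity) with hc | hc
  · refine le_trans ?_ (add_le_add_left (le_max_left _ _) _)
    rw [Real.log_one] at hc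
    linarith
  · refine le_trans ?_ (add_le_add_left (le_max_right _ _) _)
    rw [Real.log_rpow (by positivity), Real.log_div (by positivity) hTp.ne', Real.log_pow] at hc
    simp only [Nat.cast_ofNat] at hc
    linarith

/-- fifth bound: energy -/
lemma P5 (hF : FourthU) (hE : EnergyG) (hP : PowDP) {ε0 δ d : ℝ} (hp : Par ε0 δ d) (k : ℕ) (hk : 1 ≤ k) :
    ∀ᶠ X : ℝ in atTop, ∀ (x : ℝ) (Z : Finset ℂ) (c : ℂ → ℂ) (g : ℕ → ℂ) (N : ℕ) (U : Finset ℝ),
    Cls ε0 δ d X x Z c g N U → Z.Nonempty → U.Nonempty → (k : ℝ) * Real.log N ≤ 2 * Real.log X →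
    Real.log U.card ≤ Real.log X / 2 - 4 * x * Real.log X + max (4 * x * (k * Real.log N) + Real.log Z.card)
      (Real.log X / 2 + 2 * Real.log Z.card - (2 - 4 * x) * (k * Real.log N)) + 40 * δ * Real.log X := by
  have hδ := hp.dpos
  have hδ' := hp.dsmall
  have hd4 := hp.h4
  have hd5 := hp.h5
  obtain ⟨C1, hC1, hpc⟩ := pow_class hP hp k hk (δ / 10) (by positivity)
  obtain ⟨CF, hCF, hfu⟩ := hF
  obtain ⟨C, hC, hmv⟩ := hE (2 ^ k) (Nat.one_le_two_pow)
  filter_upwards [base hp, hpc, small (4 * k * Real.log 16 + Real.log CF + 2 * Real.log C + 4 * Real.log C1 +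
    2 * Real.log 2 + 2 * Real.log 3 + 20) (4 * k + 30) δ hδ] with X hb hpc hsm1 x Z c g N U h hZ hU hkq
  obtain ⟨h8, hl, hN, hq0, hq1, hq2⟩ := hb x Z c g N U h
  obtain ⟨b, hb1, hb2⟩ := hpc x Z c g N U h
  have hx0 := h.hx0
  have hx1 := h.hx1
  have h1 := hp.h1
  have h3 := hp.h3
  obtain ⟨hT1, hT2, hT3⟩ := logT h8 hd4
  have hN' : (1:ℝ) ≤ N := by exact_mod_cast hN
  have hQ : 1 ≤ N ^ k := Nat.one_le_pow _ _ (by omega)
  have hl0 : 0 < Real.log X := by linarith
  have hkk : (1:ℝ) ≤ k := by exact_mod_cast hk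
  have hZc : (0:ℝ) < Z.card := by exact_mod_cast hZ.card_pos
  have hUc : (0:ℝ) < U.card := by exact_mod_cast hU.card_pos
  have hX0 : (0:ℝ) < X := by linarith
  have hQpos : (0:ℝ) < ((N ^ k : ℕ) : ℝ) := by exact_mod_cast hQ
  have hlogQ : Real.log ((N ^ k : ℕ) : ℝ) = k * Real.log N := by push_cast; rw [Real.log_pow]
  have hspT : SpacedR U (1 / (X ^ (1/2 + 2 * d) + 1)) := by
    intro u hu u' hu' hne
    refine le_trans ?_ (h.hUs u hu u' hu' hne)
    apply one_div_le_one_div_of_le (by linarith) (by linarith)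
  set l := Real.log X with hldef
  set q := Real.log N with hqdef
  set T := X ^ (1/2 + 2 * d) + 1 with hTdef
  have hq00 : 0 ≤ q := Real.log_nonneg hN'
  have hVpos : 0 < (1 / (16 * l)) ^ k := by positivity
  have hB : 0 < C1 * (N:ℝ) ^ (δ / 10) := by positivity
  have hTp : 0 < T := by linarith
  have hf1 := hfu Z c (l ^ 2) (1 - x + δ) T l U (by linarith) hl0.le (by linarith) (by positivity)
    (fun ρ hρ => ⟨by linarith [(h.hs ρ hρ).1], (h.hs ρ hρ).2.1, (h.hs ρ hρ).2.2, h.hc ρ hρ⟩) h.hU hspT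
  have hf2 : (U.card : ℝ) * (1 / l ^ 4) ^ 4 ≤
      CF * (l ^ 2) ^ 4 * T * EZ Z * Real.exp (4 * (1 - x + δ - 1) * l) := by
    refine le_trans ?_ hf1
    rw [← nsmul_eq_mul]
    apply Finset.card_nsmul_le_sum
    intro u hu
    exact pow_le_pow_left₀ (by positivity) (h.hS u hu) 4
  have hE0 : (0:ℝ) < EZ Z := by
    by_contra hcon
    have : (EZ Z : ℝ) = 0 := le_antisymm (not_lt.mp hcon) (by positivity)
    rw [this] at hf2
    have h5 : 0 < (U.card : ℝ) * (1 / l ^ 4) ^ 4 := by positivity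
    simp only [mul_zero, zero_mul] at hf2
    linarith
  have hlf := Real.log_le_log (by positivity) hf2
  rw [Real.log_mul hUc.ne' (by positivity), Real.log_pow, Real.log_div (by norm_num) (by positivity), Real.log_one,
    Real.log_pow, Real.log_mul (by positivity) (by positivity), Real.log_exp, Real.log_mul (by positivity) hE0.ne',
    Real.log_mul (by positivity) hTp.ne', Real.log_mul hCF.ne' (by positivity), Real.log_pow, Real.log_pow] at hlf
  simp only [Nat.cast_ofNat] at hlf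
  have hmain := hmv Z b (N ^ k) (C1 * (N:ℝ) ^ (δ/10)) ((1 / (16 * l)) ^ k) (1 - x) (1 - x + δ) T (1 / l) hQ
    (by linarith) (by positivity) (by rw [div_le_div_iff₀ hl0 (by norm_num)]; linarith) (by linarith)
    (by linarith) (by linarith) (by linarith) hVpos hB.le hb1 h.hs h.hsp hb2
  have hsE : 0 < Real.sqrt (EZ Z) := Real.sqrt_pos.mpr hE0
  have hsZ : 0 < Real.sqrt (Z.card : ℝ) := Real.sqrt_pos.mpr hZc
  have hsT : 0 < Real.sqrt T := Real.sqrt_pos.mpr hTp
  have hlogQ0 : 0 < 1 + Real.log ((N ^ k : ℕ) : ℝ) := by rw [hlogQ]; positivity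
  have hlg := Real.log_le_log (by positivity) hmain
  have hlE : Real.log (Real.sqrt (EZ Z)) = Real.log (EZ Z) / 2 := Real.log_sqrt hE0.le
  have hlZ : Real.log (Real.sqrt (Z.card : ℝ)) = Real.log (Z.card) / 2 := Real.log_sqrt hZc.le
  have hlT : Real.log (Real.sqrt T) = Real.log T / 2 := Real.log_sqrt hTp.le
  set A1 : ℝ := ((N ^ k : ℕ) : ℝ) ^ 2 * Real.sqrt (Z.card : ℝ) with hA1
  set A2 : ℝ := ((N ^ k : ℕ) : ℝ) * Z.card * Real.sqrt T with hA2
  have hA1p : 0 < A1 := by positivity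
  have hA2p : 0 < A2 := by positivity
  have hlA1 : Real.log A1 = 2 * (k * q) + Real.log Z.card / 2 := by
    rw [hA1, Real.log_mul (by positivity) hsZ.ne', Real.log_pow, hlogQ, hlZ]
    simp only [Nat.cast_ofNat]
  have hlA2 : Real.log A2 = k * q + Real.log Z.card + Real.log T / 2 := by
    rw [hA2, Real.log_mul (by positivity) hsT.ne', Real.log_mul hQpos.ne' hZc.ne', hlogQ, hlT]
  have hlQ1 : Real.log (1 + Real.log ((N ^ k : ℕ) : ℝ)) ≤ Real.log 3 + Real.log l := by
    rw [← Real.log_mul (by norm_num) hl0.ne', hlogQ]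
    apply Real.log_le_log (by positivity)
    linarith
  rw [Real.log_mul hsE.ne' (by positivity), hlE, Real.log_pow, Real.log_pow, Real.log_div (by norm_num) (by positivity),
    Real.log_one, Real.log_mul (by norm_num) hl0.ne', Real.log_mul (by positivity) (by positivity),
    Real.log_mul (by positivity) hlogQ0.ne', Real.log_mul (by positivity) (by positivity),
    Real.log_div (by positivity) (by positivity), Real.log_mul hC.ne' (by positivity), Real.log_pow,
    Real.log_mul hC1.ne' (by positivity), Real.log_rpow (by linarith), Real.log_rpow hQpos,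
    Real.log_pow, Real.log_div (by norm_num) hl0.ne', Real.log_one] at hlg
  simp only [Nat.cast_ofNat] at hlg
  rw [← hqdef] at hlg
  have hqq : (2 * (1 / l)) * (k * q) ≤ 4 := by
    have : (2 * (1 / l)) * (k * q) = 2 * (k * q) / l := by ring
    rw [this, div_le_iff₀ hl0]; linarith
  have hexp : (-2 * (1 - x) + 2 * (1 / l)) * Real.log ((N ^ k : ℕ) : ℝ) = -(2 - 2 * x) * (k * q) + (2 * (1 / l)) * (k * q) := by
    rw [hlogQ]; ring
  rw [hexp] at hlg
  have hdq : δ / 10 * q ≤ δ / 10 * l := mul_le_mul_of_nonneg_left hq2 (by positivity)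
  have hdl0 : 0 ≤ δ * l := by positivity
  have hdl : d * l ≤ δ * l := mul_le_mul_of_nonneg_right hd5 hl0.le
  rcases log_add_le hA1p hA2p with hc | hc
  · have hm := le_max_left (4 * x * (k * q) + Real.log Z.card) (l / 2 + 2 * Real.log Z.card - (2 - 4 * x) * (k * q))
    rw [hlA1] at hc
    linarith
  · have hm := le_max_right (4 * x * (k * q) + Real.log Z.card) (l / 2 + 2 * Real.log Z.card - (2 - 4 * x) * (k * q))
    rw [hlA2] at hc
    linarith

lemma conv {z a b e l A B E : ℝ} (hl : 0 < l) (h : z ≤ max a b + e) (ha : 2 * a / l = A) (hb : 2 * b / l = B)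
    (he : 2 * e / l ≤ E) : 2 * z / l ≤ max A B + E := by
  rw [← ha, ← hb]
  have h1 : 2 * z / l ≤ 2 * (max a b + e) / l := by
    apply div_le_div_of_nonneg_right (by linarith) hl.le
  have h2 : 2 * (max a b + e) / l = 2 * max a b / l + 2 * e / l := by ring
  have h3 : 2 * max a b / l ≤ max (2 * a / l) (2 * b / l) := by
    rcases le_total a b with hab | hab
    · rw [max_eq_right hab]; exact le_max_right _ _
    · rw [max_eq_left hab]; exact le_max_left _ _
  linarith

/-- KC-16 -/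
theorem classBound (h1 : MVCount) (h2 : HuxleyCount) (h3 : SLemma) (h4 : FourthU) (h5 : EnergyG) (h6 : PowDP)
    (h7 : Numeric) : ClassBound := by
  intro ε0 δ d e1 e2 e3 e4 e5
  have hp : Par ε0 δ d := ⟨e1, e2, e3, e4, e5⟩
  have hδ := hp.dpos
  have hδ' := hp.dsmall
  have hall : ∀ᶠ X : ℝ in atTop, ∀ k ∈ Finset.Icc 1 ⌈(8:ℝ) / δ⌉₊,
      ∀ (x : ℝ) (Z : Finset ℂ) (c : ℂ → ℂ) (g : ℕ → ℂ) (N : ℕ) (U : Finset ℝ),
      Cls ε0 δ d X x Z c g N U → Z.Nonempty → U.Nonempty → (k : ℝ) * Real.log N ≤ 2 * Real.log X →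
      (Real.log Z.card ≤ max (2 * x * (k * Real.log N))
        (Real.log X / 2 - k * Real.log N * (1 - 2 * x)) + 40 * δ * Real.log X) ∧
      (Real.log Z.card ≤ max (2 * x * (k * Real.log N))
        (Real.log X / 2 - k * Real.log N * (2 - 6 * x)) + 40 * δ * Real.log X) ∧
      (Real.log Z.card + 2 * x * (k * Real.log N) ≤ (2 * x - 50 * δ) * Real.log X →
        Real.log U.card ≤ max (Real.log X / 2 + Real.log Z.card - 2 * x * Real.log X - k * Real.log N * (1 - 2 * x))
          (4 * (Real.log X / 2 + Real.log Z.card - 2 * x * Real.log X - k * Real.log N * (1 - 2 * x)) -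
          Real.log X / 2) + 40 * δ * Real.log X) ∧
      (Real.log U.card ≤ Real.log X / 2 - 4 * x * Real.log X + max (4 * x * (k * Real.log N) + Real.log Z.card)
        (Real.log X / 2 + 2 * Real.log Z.card - (2 - 4 * x) * (k * Real.log N)) + 40 * δ * Real.log X) := by
    rw [Filter.eventually_all_finset]
    intro k hk
    have hk1 : 1 ≤ k := (Finset.mem_Icc.mp hk).1
    filter_upwards [P1 h1 h6 hp k hk1, P2 h2 h6 hp k hk1, P4 h3 h6 hp k hk1, P5 h4 h5 h6 hp k hk1]
      with X a b c' d' x Z c g N U hcl hZ hU hkq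
    exact ⟨a x Z c g N U hcl hZ hkq, b x Z c g N U hcl hZ hkq, c' x Z c g N U hcl hZ hU hkq,
      d' x Z c g N U hcl hZ hU hkq⟩
  obtain ⟨X0, hX0⟩ := (eventually_atTop.mp ((base hp).and ((P3 hp).and hall)))
  refine ⟨X0, fun X x Z c g N U hX f1 f2 f3 f4 f5 f6 f7 f8 f9 f10 f11 f12 => ?_⟩
  obtain ⟨hb, hP3, hA⟩ := hX0 X hX
  have hcl : Cls ε0 δ d X x Z c g N U := ⟨f1, f2, f3, f4, f5, f6, f7, f8, f9, f10, f11, f12⟩
  obtain ⟨h8, hl, hN, hq0, hq1, hq2⟩ := hb x Z c g N U hcl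
  have hXp : (0:ℝ) < X := by linarith
  rcases Finset.eq_empty_or_nonempty U with hU | hU
  · rw [hU]; simp; positivity
  obtain ⟨hZ, hz⟩ := hP3 x Z c g N U hcl hU
  have hA' := fun k hk => hA k hk x Z c g N U hcl hZ hU
  have hUc : (0:ℝ) < U.card := by exact_mod_cast hU.card_pos
  set l := Real.log X with hldef
  set q := Real.log N with hqdef
  have hl0 : 0 < l := by linarith
  have hq : 0 < q := lt_of_lt_of_le (by positivity) hq0
  have hn : δ ≤ 2 * q / l := by
    rw [le_div_iff₀ hl0]; linarith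
  have hnp : 0 < 2 * q / l := by positivity
  have key : ∀ k : ℕ, 1 ≤ k → (k : ℝ) ≤ 4 / (2 * q / l) → k ∈ Finset.Icc 1 ⌈(8:ℝ) / δ⌉₊ ∧ (k : ℝ) * q ≤ 2 * l := by
    intro k hk hk4
    have hk5 : (k:ℝ) * (2 * q / l) ≤ 4 := by rwa [le_div_iff₀ hnp] at hk4
    constructor
    · rw [Finset.mem_Icc]
      refine ⟨hk, ?_⟩
      have : (k:ℝ) ≤ 8 / δ := by
        rw [le_div_iff₀ hδ]
        have : (k:ℝ) * δ ≤ k * (2 * q / l) := mul_le_mul_of_nonneg_left hn (by positivity)
        linarith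
      exact_mod_cast le_trans this (Nat.le_ceil _)
    · have : (k:ℝ) * (2 * q / l) = 2 * (k * q) / l := by ring
      rw [this, div_le_iff₀ hl0] at hk5
      linarith
  have he : 2 * (40 * δ * l) / l ≤ 100 * δ := by
    rw [div_le_iff₀ hl0]; nlinarith
  have hfin := h7 ε0 e1 e2 (100 * δ) x (2 * q / l) (2 * Real.log Z.card / l) (2 * Real.log U.card / l)
    (by positivity) (by rw [e3]; linarith) f1 (by linarith) hnp
    (by
      rw [div_le_iff₀ hl0]
      have : (yy x + 100 * δ) * l = 2 * ((yy x / 2 + 45 * δ) * l) + 10 * δ * l := by ring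
      rw [this]; have : 0 ≤ 10 * δ * l := by positivity
      linarith)
    (by
      intro k hk hk4
      obtain ⟨g1, g2⟩ := key k hk hk4
      obtain ⟨a1, a2, a3, a4⟩ := hA' k g1 g2
      exact conv hl0 a1 (by field_simp) (by field_simp) he)
    (by
      intro k hk hk4
      obtain ⟨g1, g2⟩ := key k hk hk4
      obtain ⟨a1, a2, a3, a4⟩ := hA' k g1 g2
      exact conv hl0 a2 (by field_simp) (by field_simp) he)
    (by
      rw [le_div_iff₀ hl0]
      have : 0 ≤ δ * l := by positivity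
      linarith)
    (by
      intro k hk hk4 hcond
      obtain ⟨g1, g2⟩ := key k hk hk4
      obtain ⟨a1, a2, a3, a4⟩ := hA' k g1 g2
      have h9 : Real.log Z.card + 2 * x * (k * q) ≤ (2 * x - 50 * δ) * l := by
        have e6 : 2 * Real.log Z.card / l + 2 * x * (k * (2 * q / l)) = 2 * (Real.log Z.card + 2 * x * (k * q)) / l := by
          ring
        rw [e6, div_le_iff₀ hl0] at hcond
        linarith
      exact conv hl0 (a3 h9) (by field_simp; ring) (by field_simp; ring) he)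
    (by
      intro k hk hk4
      obtain ⟨g1, g2⟩ := key k hk hk4
      obtain ⟨a1, a2, a3, a4⟩ := hA' k g1 g2
      have a5 : Real.log U.card - (l / 2 - 4 * x * l) ≤ max (4 * x * (k * q) + Real.log Z.card)
        (l / 2 + 2 * Real.log Z.card - (2 - 4 * x) * (k * q)) + 40 * δ * l := by linarith
      have a6 := conv (A := 4 * x * (k * (2 * q / l)) + 2 * Real.log Z.card / l)
        (B := 1 + 2 * (2 * Real.log Z.card / l) - (2 - 4 * x) * (k * (2 * q / l))) hl0 a5 (by field_simp)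
        (by field_simp) he
      have e7 : 2 * (Real.log U.card - (l / 2 - 4 * x * l)) / l = 2 * Real.log U.card / l - (1 - 8 * x) := by
        field_simp; ring
      rw [e7] at a6
      linarith)
  rw [div_le_iff₀ hl0] at hfin
  rw [← Real.log_le_log_iff hUc (by positivity), Real.log_rpow hXp]
  linarith

end Pool.Agent.Helper60.KC
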