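import Pool.Agent.Helper60.KC.ClassBound

/-! KC-18: assembly of Theorem C. -/

set_option autoImplicit false
set_option maxHeartbeats 4000000
open Filter Topology
open scoped Classical

namespace Pool.Agent.Helper60.KC
open Pool.Agent.Helper60.KS

lemma zero_re_lt {ρ : ℂ} (h : riemannZeta ρ = 0) : ρ.re < 1 := by
  by_contra hcon
  exact riemannZeta_ne_zero_of_one_le_re (not_lt.mp hcon) h

lemma term_le {X u : ℝ} {ρ c : ℂ} (hX : 1 < X) (hz : riemannZeta ρ = 0) (hc : ‖c‖ ≤ 2) (hu : Real.log X ≤ u) :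
    ‖(mz ρ : ℂ) * c * Complex.exp ((ρ - 1) * (u : ℂ))‖ ≤ 2 * ((mz ρ : ℝ) * X ^ (ρ.re - 1)) := by
  have h1 := zero_re_lt hz
  have hl : 0 < Real.log X := Real.log_pos hX
  rw [norm_mul, norm_mul, Complex.norm_exp, Complex.norm_natCast]
  have e : ((ρ - 1) * (u:ℂ)).re = (ρ.re - 1) * u := by
    simp [Complex.mul_re]
  have e2 : Real.exp ((ρ - 1) * (u:ℂ)).re ≤ X ^ (ρ.re - 1) := by
    rw [e, Real.rpow_def_of_pos (by linarith)]
    apply Real.exp_le_exp.mpr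
    nlinarith
  calc (mz ρ : ℝ) * ‖c‖ * Real.exp ((ρ - 1) * (u:ℂ)).re ≤ (mz ρ : ℝ) * 2 * X ^ (ρ.re - 1) := by
        apply mul_le_mul _ e2 (Real.exp_pos _).le (by positivity)
        exact mul_le_mul_of_nonneg_left hc (by positivity)
    _ = _ := by ring

lemma low_zeros {C : ℝ} (hC : 0 < C)
    (hA : ∀ (t : ℝ) (F : Finset ℂ), (∀ ρ ∈ F, riemannZeta ρ = 0 ∧ 1/2 ≤ ρ.re ∧ |ρ.im - t| ≤ 1) →
      ∑ ρ ∈ F, (mz ρ : ℝ) ≤ C * Real.log (|t| + 2)) (M : ℕ) (F : Finset ℂ)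
    (hF : ∀ ρ ∈ F, riemannZeta ρ = 0 ∧ 1/2 ≤ ρ.re ∧ |ρ.im| ≤ M) :
    ∑ ρ ∈ F, (mz ρ : ℝ) ≤ (2 * M + 1) * (C * Real.log (M + 2)) := by
  have hmap : ∀ ρ ∈ F, round ρ.im ∈ Finset.Icc (-(M:ℤ)) M := by
    intro ρ hρ
    obtain ⟨-, -, h⟩ := hF ρ hρ
    rw [abs_le] at h
    have h1 := abs_le.mp (abs_sub_round ρ.im)
    rw [Finset.mem_Icc]
    constructor
    · have : (-(M:ℤ) - 1 : ℝ) < (round ρ.im : ℝ) := by push_cast; linarith
      have h2 : (-(M:ℤ) - 1 : ℤ) < round ρ.im := by exact_mod_cast this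
      omega
    · have : (round ρ.im : ℝ) < ((M:ℤ) + 1 : ℝ) := by push_cast; linarith
      have h2 : round ρ.im < ((M:ℤ) + 1 : ℤ) := by exact_mod_cast this
      omega
  rw [← Finset.sum_fiberwise_of_maps_to hmap]
  have hb : ∀ m ∈ Finset.Icc (-(M:ℤ)) M, ∑ ρ ∈ F with round ρ.im = m, (mz ρ : ℝ) ≤ C * Real.log (M + 2) := by
    intro m hm
    have h1 := hA m (F.filter (fun ρ => round ρ.im = m)) (by
      intro ρ hρ
      rw [Finset.mem_filter] at hρ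
      obtain ⟨h2, h3, -⟩ := hF ρ hρ.1
      refine ⟨h2, h3, ?_⟩
      rw [← hρ.2]
      exact le_trans (abs_sub_round _) (by norm_num))
    refine le_trans h1 ?_
    apply mul_le_mul_of_nonneg_left _ hC.le
    apply Real.log_le_log (by positivity)
    have : |(m:ℝ)| ≤ M := by
      rw [Finset.mem_Icc] at hm
      rw [abs_le]
      constructor
      · have := hm.1; exact_mod_cast this
      · exact_mod_cast hm.2
    linarith
  refine le_trans (Finset.sum_le_sum hb) ?_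
  rw [Finset.sum_const, nsmul_eq_mul, Int.card_Icc]
  apply le_of_eq
  congr 1
  have : (M:ℤ) + 1 - -(M:ℤ) = 2 * M + 1 := by ring
  rw [this]
  have h2 : ((2 * (M:ℤ) + 1).toNat : ℤ) = 2 * M + 1 := Int.toNat_of_nonneg (by omega)
  exact_mod_cast h2

/-- everything that holds at one large `X` -/
lemma main_count {C ε0 δ d X : ℝ} (hp : Par ε0 δ d) (hC : 0 < C) (hX8 : 8 ≤ X) (hl : 10 ≤ Real.log X)
    (hA : ∀ (t : ℝ) (F : Finset ℂ), (∀ ρ ∈ F, riemannZeta ρ = 0 ∧ 1/2 ≤ ρ.re ∧ |ρ.im - t| ≤ 1) →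
      ∑ ρ ∈ F, (mz ρ : ℝ) ≤ C * Real.log (|t| + 2))
    (hN : ∀ F : Finset ℂ, (∀ ρ ∈ F, riemannZeta ρ = 0 ∧ 1 - ε0 ≤ ρ.re ∧ |ρ.im| ≤ X ^ (0.6 : ℝ)) →
      ∑ ρ ∈ F, (mz ρ : ℝ) * X ^ (ρ.re - 1) ≤ 1/16)
    (hD : ∀ x : ℝ, 0 < x → x ≤ 0.4 + δ → ∃ g : ℕ → ℂ, (∀ n, ‖g n‖ ≤ (n.divisors.card : ℝ)) ∧
      ∀ ρ : ℂ, riemannZeta ρ = 0 → 1 - x ≤ ρ.re → Real.log X ^ 2 ≤ |ρ.im| → |ρ.im| ≤ X ^ (1/2 + 2 * d) + 1 →
      ∃ i : ℕ, X ^ δ / 2 ≤ (2 : ℝ) ^ i ∧ (2 : ℝ) ^ i ≤ X ^ (yy x / 2 + 45 * δ) ∧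
        1 / (16 * Real.log X) ≤ ‖DP g (2 ^ i) 2 ρ‖)
    (hK : ∀ (x : ℝ) (Z : Finset ℂ) (c : ℂ → ℂ) (g : ℕ → ℂ) (N : ℕ) (U : Finset ℝ),
      Cls ε0 δ d X x Z c g N U → (U.card : ℝ) ≤ X ^ (0.2156 : ℝ))
    (hS : SplitSpaced)
    (hx1 : X ^ (1/2 + 2 * d) + 4 ≤ X) (hx2 : X ^ (1/2 + 2 * d) + 1 ≤ X ^ (0.6 : ℝ))
    (hx3 : 240 * C * Real.log X ^ 4 ≤ X ^ ε0)
    (hx4 : 8 * (1 / δ + 2) * (C + 1) ≤ Real.log X)
    (hx5 : 2 * (C * Real.log X) ≤ Real.log X ^ 2)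
    (F : Finset ℂ) (c : ℂ → ℂ) (u : ℕ → ℝ) (J : ℕ)
    (hF : ∀ ρ ∈ F, riemannZeta ρ = 0 ∧ 0.6 < ρ.re ∧ |ρ.im| ≤ X ^ (1/2 + 2 * d) + 1)
    (hc : ∀ ρ ∈ F, ‖c ρ‖ ≤ 2)
    (hu : ∀ j < J, Real.log X ≤ u j ∧ u j ≤ Real.log X + 1)
    (hus : ∀ j < J, ∀ j' < J, j ≠ j' → 1 / X ^ (1/2 + 2 * d) ≤ |u j - u j'|) :
    (((Finset.range J).filter (fun j => 1/2 ≤ ‖∑ ρ ∈ F, (mz ρ : ℂ) * c ρ *
      Complex.exp ((ρ - 1) * (u j : ℂ))‖)).card : ℝ) ≤ Real.log X ^ 3 * X ^ (0.2156 : ℝ) := by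
  have hδ := hp.dpos
  have hδ' := hp.dsmall
  have hX0 : 1 < X := by linarith
  set l := Real.log X with hldef
  have hl0 : 0 < l := by linarith
  have hXp : 0 < X := by linarith
  -- the three parts
  set P1 : ℂ → Prop := fun ρ => 1 - ε0 ≤ ρ.re with hP1
  set P2 : ℂ → Prop := fun ρ => |ρ.im| < l ^ 2 with hP2
  set F1 := F.filter P1 with hF1
  set F2 := (F.filter (fun ρ => ¬ P1 ρ)).filter P2 with hF2
  set F3a := (F.filter (fun ρ => ¬ P1 ρ)).filter (fun ρ => ¬ P2 ρ) with hF3a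
  set F3 := F3a.filter (fun ρ => mz ρ ≠ 0) with hF3
  set f : ℝ → ℂ → ℂ := fun v ρ => (mz ρ : ℂ) * c ρ * Complex.exp ((ρ - 1) * (v : ℂ)) with hf
  have hsplit : ∀ v : ℝ, ∑ ρ ∈ F, f v ρ = ∑ ρ ∈ F1, f v ρ + (∑ ρ ∈ F2, f v ρ + ∑ ρ ∈ F3, f v ρ) := by
    intro v
    have e3 : ∑ ρ ∈ F3a, f v ρ = ∑ ρ ∈ F3, f v ρ := by
      symm
      rw [hF3]
      apply Finset.sum_filter_of_ne
      intro ρ hρ h hm
      apply h
      simp [hf, hm]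
    rw [← e3, hF2, hF3a, Finset.sum_filter_add_sum_filter_not, hF1, Finset.sum_filter_add_sum_filter_not]
  have hpart1 : ∀ v : ℝ, l ≤ v → ‖∑ ρ ∈ F1, f v ρ‖ ≤ 1/8 := by
    intro v hv
    refine le_trans (norm_sum_le _ _) ?_
    have h1 : ∀ ρ ∈ F1, ‖f v ρ‖ ≤ 2 * ((mz ρ : ℝ) * X ^ (ρ.re - 1)) := by
      intro ρ hρ
      rw [hF1, Finset.mem_filter] at hρ
      exact term_le hX0 (hF ρ hρ.1).1 (hc ρ hρ.1) hv
    refine le_trans (Finset.sum_le_sum h1) ?_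
    rw [← Finset.mul_sum]
    have h2 := hN F1 (by
      intro ρ hρ
      rw [hF1, Finset.mem_filter] at hρ
      exact ⟨(hF ρ hρ.1).1, hρ.2, le_trans (hF ρ hρ.1).2.2 hx2⟩)
    linarith
  have hpart2 : ∀ v : ℝ, l ≤ v → ‖∑ ρ ∈ F2, f v ρ‖ ≤ 1/8 := by
    intro v hv
    refine le_trans (norm_sum_le _ _) ?_
    have h1 : ∀ ρ ∈ F2, ‖f v ρ‖ ≤ 2 * X ^ (-ε0) * (mz ρ : ℝ) := by
      intro ρ hρ
      rw [hF2, Finset.mem_filter, Finset.mem_filter] at hρ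
      refine le_trans (term_le hX0 (hF ρ hρ.1.1).1 (hc ρ hρ.1.1) hv) ?_
      have h3 : ρ.re < 1 - ε0 := not_le.mp hρ.1.2
      have h4 : X ^ (ρ.re - 1) ≤ X ^ (-ε0) := Real.rpow_le_rpow_of_exponent_le hX0.le (by linarith)
      have h5 : (0:ℝ) ≤ mz ρ := Nat.cast_nonneg _
      nlinarith
    refine le_trans (Finset.sum_le_sum h1) ?_
    rw [← Finset.mul_sum]
    have h2 := low_zeros hC hA ⌈l ^ 2⌉₊ F2 (by
      intro ρ hρ
      rw [hF2, Finset.mem_filter, Finset.mem_filter] at hρ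
      have h3 : |ρ.im| < l ^ 2 := hρ.2
      refine ⟨(hF ρ hρ.1.1).1, by linarith [(hF ρ hρ.1.1).2.1], ?_⟩
      exact le_trans h3.le (Nat.le_ceil _))
    have hM : (⌈l ^ 2⌉₊ : ℝ) < l ^ 2 + 1 := Nat.ceil_lt_add_one (by positivity)
    set M := (⌈l ^ 2⌉₊ : ℝ) with hMdef
    have hM0 : 0 ≤ M := Nat.cast_nonneg _
    have hlog : Real.log (M + 2) ≤ M + 1 := by
      have := Real.log_le_sub_one_of_pos (show 0 < M + 2 by linarith); linarith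
    have hl2 : 100 ≤ l ^ 2 := by nlinarith
    have h6 : (2 * M + 1) * (C * Real.log (M + 2)) ≤ (5 * l ^ 2) * (C * (3 * l ^ 2)) := by
      apply mul_le_mul (by linarith) _ _ (by positivity)
      · apply mul_le_mul_of_nonneg_left (by linarith) hC.le
      · have : 0 ≤ Real.log (M + 2) := Real.log_nonneg (by linarith)
        positivity
    have h7 : X ^ (-ε0) * X ^ ε0 = 1 := by
      rw [← Real.rpow_add hXp]; simp
    have h8 : 0 < X ^ (-ε0) := Real.rpow_pos_of_pos hXp _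
    calc 2 * X ^ (-ε0) * ∑ ρ ∈ F2, (mz ρ : ℝ) ≤ 2 * X ^ (-ε0) * ((5 * l ^ 2) * (C * (3 * l ^ 2))) := by
          apply mul_le_mul_of_nonneg_left (le_trans h2 h6) (by positivity)
      _ = 1/8 * (X ^ (-ε0) * (240 * C * l ^ 4)) := by ring
      _ ≤ 1/8 * (X ^ (-ε0) * X ^ ε0) := by
          apply mul_le_mul_of_nonneg_left _ (by norm_num)
          exact mul_le_mul_of_nonneg_left hx3 h8.le
      _ = 1/8 := by rw [h7]; norm_num
  -- classes of F3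
  have hF3' : ∀ ρ ∈ F3, riemannZeta ρ = 0 ∧ 0.6 < ρ.re ∧ ρ.re < 1 - ε0 ∧ l ^ 2 ≤ |ρ.im| ∧
      |ρ.im| ≤ X ^ (1/2 + 2 * d) + 1 ∧ 1 ≤ mz ρ ∧ ‖c ρ‖ ≤ 2 := by
    intro ρ hρ
    rw [hF3, Finset.mem_filter, hF3a, Finset.mem_filter, Finset.mem_filter] at hρ
    obtain ⟨⟨⟨h1, h2⟩, h3⟩, h4⟩ := hρ
    exact ⟨(hF ρ h1).1, (hF ρ h1).2.1, not_le.mp h2, not_lt.mp h3, (hF ρ h1).2.2, Nat.one_le_iff_ne_zero.mpr h4, hc ρ h1⟩
  have hD' : ∀ x : ℝ, ∃ g : ℕ → ℂ, 0 < x → x ≤ 0.4 + δ → ((∀ n, ‖g n‖ ≤ (n.divisors.card : ℝ)) ∧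
      ∀ ρ : ℂ, riemannZeta ρ = 0 → 1 - x ≤ ρ.re → l ^ 2 ≤ |ρ.im| → |ρ.im| ≤ X ^ (1/2 + 2 * d) + 1 →
      ∃ i : ℕ, X ^ δ / 2 ≤ (2 : ℝ) ^ i ∧ (2 : ℝ) ^ i ≤ X ^ (yy x / 2 + 45 * δ) ∧
        1 / (16 * l) ≤ ‖DP g (2 ^ i) 2 ρ‖) := by
    intro x
    by_cases h : 0 < x ∧ x ≤ 0.4 + δ
    · obtain ⟨g, hg⟩ := hD x h.1 h.2
      exact ⟨g, fun _ _ => hg⟩
    · exact ⟨0, fun h1 h2 => absurd ⟨h1, h2⟩ h⟩
  choose G hG using hD'
  set a : ℂ → ℕ := fun ρ => ⌈(1 - ρ.re) / δ⌉₊ with ha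
  have hax : ∀ ρ ∈ F3, 1 - ρ.re ≤ δ * a ρ ∧ δ * a ρ < 1 - ρ.re + δ := by
    intro ρ hρ
    obtain ⟨-, h2, h3, -⟩ := hF3' ρ hρ
    have h1 := hp.h1
    constructor
    · have := Nat.le_ceil ((1 - ρ.re) / δ)
      rw [div_le_iff₀ hδ] at this
      rw [mul_comm]; exact this
    · have := Nat.ceil_lt_add_one (show 0 ≤ (1 - ρ.re) / δ by apply div_nonneg (by linarith) hδ.le)
      have h5 : δ * (a ρ : ℝ) < δ * ((1 - ρ.re) / δ + 1) := mul_lt_mul_of_pos_left this hδ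
      have h6 : δ * ((1 - ρ.re) / δ + 1) = 1 - ρ.re + δ := by field_simp
      linarith
  have hex : ∀ ρ ∈ F3, ∃ i : ℕ, X ^ δ / 2 ≤ (2 : ℝ) ^ i ∧ (2 : ℝ) ^ i ≤ X ^ (yy (δ * a ρ) / 2 + 45 * δ) ∧
        1 / (16 * l) ≤ ‖DP (G (δ * a ρ)) (2 ^ i) 2 ρ‖ := by
    intro ρ hρ
    obtain ⟨h1, h2, h3, h4, h5, -⟩ := hF3' ρ hρ
    obtain ⟨h6, h7⟩ := hax ρ hρ
    have h8 := hp.h1
    exact (hG (δ * a ρ) (by linarith) (by linarith)).2 ρ h1 (by linarith) h4 h5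
  choose! iF hiF using hex
  have hMM : ∀ t : ℝ, (F3.filter (fun ρ => |ρ.im - t| ≤ 1)).card ≤ ⌈C * l⌉₊ := by
    intro t
    rcases Finset.eq_empty_or_nonempty (F3.filter (fun ρ => |ρ.im - t| ≤ 1)) with he | ⟨ρ0, hρ0⟩
    · rw [he]; simp
    have h1 := hA t (F3.filter (fun ρ => |ρ.im - t| ≤ 1)) (by
      intro ρ hρ
      rw [Finset.mem_filter] at hρ
      obtain ⟨h1, h2, -⟩ := hF3' ρ hρ.1
      exact ⟨h1, by linarith, hρ.2⟩)
    rw [Finset.mem_filter] at hρ0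
    obtain ⟨-, -, -, -, h5, -⟩ := hF3' ρ0 hρ0.1
    have h6 : |t| ≤ |ρ0.im| + 1 := by
      have h7 : |t| ≤ |ρ0.im| + |ρ0.im - t| := by
        have := abs_sub_abs_le_abs_sub t ρ0.im
        rw [abs_sub_comm] at this; linarith
      linarith [hρ0.2]
    have h8 : Real.log (|t| + 2) ≤ l := Real.log_le_log (by positivity) (by linarith)
    have h9 : ((F3.filter (fun ρ => |ρ.im - t| ≤ 1)).card : ℝ) ≤ ∑ ρ ∈ F3.filter (fun ρ => |ρ.im - t| ≤ 1), (mz ρ : ℝ) := by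
      rw [← nsmul_one]
      apply Finset.card_nsmul_le_sum
      intro ρ hρ
      rw [Finset.mem_filter] at hρ
      exact_mod_cast (hF3' ρ hρ.1).2.2.2.2.2.1
    have h10 : ((F3.filter (fun ρ => |ρ.im - t| ≤ 1)).card : ℝ) ≤ ⌈C * l⌉₊ :=
      le_trans h9 (le_trans h1 (le_trans (mul_le_mul_of_nonneg_left h8 hC.le) (Nat.le_ceil _)))
    exact_mod_cast h10
  obtain ⟨col, hcol1, hcol2⟩ := hS F3 ⌈C * l⌉₊ hMM
  set A0 := ⌈1 / δ⌉₊ + 1 with hA0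
  set I0 := ⌈2 * l⌉₊ + 1 with hI0
  set M0 := ⌈C * l⌉₊ with hM0
  set KK := Finset.range A0 ×ˢ (Finset.range I0 ×ˢ Finset.range M0) with hKK
  set φ : ℂ → ℕ × (ℕ × ℕ) := fun ρ => (a ρ, (iF ρ, col ρ)) with hφ
  have hmaps : ∀ ρ ∈ F3, φ ρ ∈ KK := by
    intro ρ hρ
    obtain ⟨h1, h2, h3, h4, h5, -⟩ := hF3' ρ hρ
    obtain ⟨h6, h7⟩ := hax ρ hρ
    obtain ⟨h8, h9, h10⟩ := hiF ρ hρ
    simp only [hφ, hKK, Finset.mem_product, Finset.mem_range]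
    refine ⟨?_, ?_, hcol1 ρ hρ⟩
    · have : a ρ ≤ ⌈1 / δ⌉₊ := by
        apply Nat.ceil_mono
        apply div_le_div_of_nonneg_right (by linarith) hδ.le
      omega
    · have e1 : yy (δ * a ρ) ≤ 0.92 := by
        unfold yy
        refine le_trans (min_le_right _ _) ?_
        rw [div_le_iff₀ (by linarith)]
        linarith
      have e2 : (2:ℝ) ^ iF ρ ≤ X := by
        calc (2:ℝ) ^ iF ρ ≤ X ^ (yy (δ * a ρ) / 2 + 45 * δ) := h9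
          _ ≤ X ^ (1:ℝ) := Real.rpow_le_rpow_of_exponent_le hX0.le (by linarith)
          _ = X := Real.rpow_one _
      have e3 : (iF ρ : ℝ) * Real.log 2 ≤ l := by
        rw [← Real.log_pow]; exact Real.log_le_log (by positivity) e2
      have e4 : (iF ρ : ℝ) ≤ 2 * l := by
        have h12 : (1/2 : ℝ) ≤ Real.log 2 := by have := Real.log_two_gt_d9; linarith
        have h11 : (0:ℝ) ≤ iF ρ := Nat.cast_nonneg _
        nlinarith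
      have e5 : (iF ρ : ℝ) ≤ ⌈2 * l⌉₊ := le_trans e4 (Nat.le_ceil _)
      have e6 : iF ρ ≤ ⌈2 * l⌉₊ := by exact_mod_cast e5
      omega
  have hKcard : (KK.card : ℝ) ≤ l ^ 3 := by
    rw [hKK, Finset.card_product, Finset.card_product, Finset.card_range, Finset.card_range, Finset.card_range]
    push_cast
    have e1 : (A0 : ℝ) ≤ 1 / δ + 2 := by
      rw [hA0]; push_cast
      have := Nat.ceil_lt_add_one (show 0 ≤ 1 / δ by positivity); linarith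
    have e2 : (I0 : ℝ) ≤ 4 * l := by
      rw [hI0]; push_cast
      have := Nat.ceil_lt_add_one (show 0 ≤ 2 * l by positivity); linarith
    have e3 : (M0 : ℝ) ≤ (C + 1) * l := by
      rw [hM0]
      have := Nat.ceil_lt_add_one (show 0 ≤ C * l by positivity); linarith
    calc (A0 : ℝ) * (I0 * M0) ≤ (1 / δ + 2) * ((4 * l) * ((C + 1) * l)) := by
          apply mul_le_mul e1 _ (by positivity) (by positivity)
          apply mul_le_mul e2 e3 (by positivity) (by positivity)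
      _ = (4 * (1 / δ + 2) * (C + 1)) * l ^ 2 := by ring
      _ ≤ l * l ^ 2 := by
          apply mul_le_mul_of_nonneg_right _ (by positivity)
          have : 0 ≤ (1 / δ + 2) * (C + 1) := by positivity
          linarith
      _ = l ^ 3 := by ring
  set S : ℕ × (ℕ × ℕ) → ℝ → ℂ := fun κ v => ∑ ρ ∈ F3 with φ ρ = κ, f v ρ with hSdef
  set BK : ℕ × (ℕ × ℕ) → Finset ℕ := fun κ => (Finset.range J).filter (fun j => 1 / l ^ 4 ≤ ‖S κ (u j)‖) with hBK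
  have hcover : (Finset.range J).filter (fun j => 1/2 ≤ ‖∑ ρ ∈ F, f (u j) ρ‖) ⊆ KK.biUnion BK := by
    intro j hj
    rw [Finset.mem_filter, Finset.mem_range] at hj
    obtain ⟨hj1, hj2⟩ := hj
    obtain ⟨hu1, hu2⟩ := hu j hj1
    rw [Finset.mem_biUnion]
    by_contra hcon
    push Not at hcon
    have h1 : ∀ κ ∈ KK, ‖S κ (u j)‖ ≤ 1 / l ^ 4 := by
      intro κ hκ
      have := hcon κ hκ
      rw [hBK, Finset.mem_filter, Finset.mem_range] at this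
      push Not at this
      exact (this hj1).le
    have h2 : ‖∑ ρ ∈ F3, f (u j) ρ‖ ≤ l ^ 3 * (1 / l ^ 4) := by
      rw [← Finset.sum_fiberwise_of_maps_to hmaps]
      refine le_trans (norm_sum_le _ _) ?_
      refine le_trans (Finset.sum_le_sum h1) ?_
      rw [Finset.sum_const, nsmul_eq_mul]
      exact mul_le_mul_of_nonneg_right hKcard (by positivity)
    have h3 : l ^ 3 * (1 / l ^ 4) = 1 / l := by field_simp
    have h4 : 1 / l ≤ 1/10 := by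
      apply one_div_le_one_div_of_le (by norm_num) hl
    rw [hsplit] at hj2
    have h5 := norm_add_le (∑ ρ ∈ F1, f (u j) ρ) (∑ ρ ∈ F2, f (u j) ρ + ∑ ρ ∈ F3, f (u j) ρ)
    have h6 := norm_add_le (∑ ρ ∈ F2, f (u j) ρ) (∑ ρ ∈ F3, f (u j) ρ)
    have h7 := hpart1 (u j) hu1
    have h8 := hpart2 (u j) hu1
    rw [h3] at h2
    linarith
  have hBcard : ∀ κ ∈ KK, ((BK κ).card : ℝ) ≤ X ^ (0.2156 : ℝ) := by
    intro κ hκ
    have hinj : Set.InjOn u (BK κ : Set ℕ) := by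
      intro j hj j' hj' he
      by_contra hne
      rw [Finset.mem_coe, hBK, Finset.mem_filter, Finset.mem_range] at hj hj'
      have := hus j hj.1 j' hj'.1 hne
      rw [he, sub_self, abs_zero] at this
      have h2 : 0 < 1 / X ^ (1/2 + 2 * d) := by positivity
      linarith
    have hcardU : ((BK κ).image u).card = (BK κ).card := Finset.card_image_of_injOn hinj
    rw [← hcardU]
    rcases Finset.eq_empty_or_nonempty (F3.filter (fun ρ => φ ρ = κ)) with he | ⟨ρ0, hρ0⟩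
    · have : BK κ = ∅ := by
        rw [hBK]
        apply Finset.filter_eq_empty_iff.mpr
        intro j hj
        rw [hSdef]
        simp only [he, Finset.sum_empty, norm_zero, not_le]
        positivity
      rw [this]; simp; positivity
    obtain ⟨ka, ki, kc⟩ := κ
    have hρ0' := Finset.mem_filter.mp hρ0
    have hκeq : ∀ ρ ∈ F3.filter (fun ρ => φ ρ = (ka, (ki, kc))), ρ ∈ F3 ∧ a ρ = ka ∧ iF ρ = ki ∧ col ρ = kc := by
      intro ρ hρ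
      have h1 := Finset.mem_filter.mp hρ
      have h2 := h1.2
      simp only [hφ, Prod.mk.injEq] at h2
      exact ⟨h1.1, h2.1, h2.2.1, h2.2.2⟩
    obtain ⟨g1, g2, g3, g4⟩ := hκeq ρ0 hρ0
    obtain ⟨b1, b2, b3, b4, b5, b6, b7⟩ := hF3' ρ0 g1
    obtain ⟨b8, b9⟩ := hax ρ0 g1
    obtain ⟨b10, b11, b12⟩ := hiF ρ0 g1
    rw [g2] at b8 b9 b11 b12
    rw [g3] at b10 b11 b12
    have hε0 := hp.h1
    have hGx := (hG (δ * ka) (by linarith) (by linarith)).1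
    apply hK (δ * ka) (F3.filter (fun ρ => φ ρ = (ka, (ki, kc)))) (fun ρ => (mz ρ : ℂ) * c ρ) (G (δ * ka)) (2 ^ ki)
    refine ⟨by linarith, by linarith, ?_, ?_, hGx, by push_cast; exact b10, by push_cast; exact b11, ?_, ?_, ?_, ?_, ?_⟩
    · intro ρ hρ
      obtain ⟨e1, e2, e3, e4⟩ := hκeq ρ hρ
      obtain ⟨c1, c2⟩ := hax ρ e1
      rw [e2] at c1 c2
      exact ⟨by linarith, by linarith, (hF3' ρ e1).2.2.2.2.1⟩
    · intro ρ hρ ρ' hρ' hne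
      obtain ⟨e1, e2, e3, e4⟩ := hκeq ρ hρ
      obtain ⟨e1', e2', e3', e4'⟩ := hκeq ρ' hρ'
      exact hcol2 kc ρ (Finset.mem_filter.mpr ⟨e1, e4⟩) ρ' (Finset.mem_filter.mpr ⟨e1', e4'⟩) hne
    · intro ρ hρ
      obtain ⟨e1, e2, e3, e4⟩ := hκeq ρ hρ
      have := (hiF ρ e1).2.2
      rw [e2, e3] at this
      exact this
    · intro ρ hρ
      obtain ⟨e1, e2, e3, e4⟩ := hκeq ρ hρ
      obtain ⟨d1, d2, d3, d4, d5, d6, d7⟩ := hF3' ρ e1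
      rw [norm_mul, Complex.norm_natCast]
      have h1 := hA ρ.im {ρ} (by
        intro ρ' hρ'
        rw [Finset.mem_singleton] at hρ'
        subst hρ'
        exact ⟨d1, by linarith, by simp⟩)
      rw [Finset.sum_singleton] at h1
      have h2 : Real.log (|ρ.im| + 2) ≤ l := Real.log_le_log (by positivity) (by linarith)
      have h3 : (mz ρ : ℝ) ≤ C * l := le_trans h1 (mul_le_mul_of_nonneg_left h2 hC.le)
      calc (mz ρ : ℝ) * ‖c ρ‖ ≤ (C * l) * 2 := mul_le_mul h3 d7 (norm_nonneg _) (by positivity)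
        _ ≤ l ^ 2 := by linarith
    · intro v hv
      obtain ⟨j, hj, rfl⟩ := Finset.mem_image.mp hv
      rw [hBK, Finset.mem_filter, Finset.mem_range] at hj
      exact hu j hj.1
    · intro v hv v' hv' hne
      obtain ⟨j, hj, rfl⟩ := Finset.mem_image.mp hv
      obtain ⟨j', hj', rfl⟩ := Finset.mem_image.mp hv'
      rw [hBK, Finset.mem_filter, Finset.mem_range] at hj hj'
      exact hus j hj.1 j' hj'.1 (fun h => hne (by rw [h]))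
    · intro v hv
      obtain ⟨j, hj, rfl⟩ := Finset.mem_image.mp hv
      rw [hBK, Finset.mem_filter, Finset.mem_range] at hj
      exact hj.2
  have hfinal : (((Finset.range J).filter (fun j => 1/2 ≤ ‖∑ ρ ∈ F, f (u j) ρ‖)).card : ℝ) ≤
      ∑ κ ∈ KK, ((BK κ).card : ℝ) := by
    have h1 := le_trans (Finset.card_le_card hcover) Finset.card_biUnion_le
    exact_mod_cast h1
  calc (((Finset.range J).filter (fun j => 1/2 ≤ ‖∑ ρ ∈ F, f (u j) ρ‖)).card : ℝ) ≤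
      ∑ κ ∈ KK, ((BK κ).card : ℝ) := hfinal
    _ ≤ ∑ κ ∈ KK, X ^ (0.2156 : ℝ) := Finset.sum_le_sum hBcard
    _ = KK.card * X ^ (0.2156 : ℝ) := by rw [Finset.sum_const, nsmul_eq_mul]
    _ ≤ l ^ 3 * X ^ (0.2156 : ℝ) := mul_le_mul_of_nonneg_right hKcard (by positivity)

/-- the elementary conditions of `main_count` for large `X` -/
lemma large_X {C ε0 δ d : ℝ} (hp : Par ε0 δ d) (hC : 0 < C) : ∀ᶠ X : ℝ in atTop,
    8 ≤ X ∧ 10 ≤ Real.log X ∧ X ^ (1/2 + 2 * d) + 4 ≤ X ∧ X ^ (1/2 + 2 * d) + 1 ≤ X ^ (0.6 : ℝ) ∧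
    240 * C * Real.log X ^ 4 ≤ X ^ ε0 ∧ 8 * (1 / δ + 2) * (C + 1) ≤ Real.log X ∧
    2 * (C * Real.log X) ≤ Real.log X ^ 2 ∧
    X ^ (0.21 + 5 * d) + Real.log X ^ 3 * X ^ (0.2156 : ℝ) ≤ X ^ (0.216 : ℝ) := by
  have hδ := hp.dpos
  have hδ' := hp.dsmall
  have hd4 := hp.h4
  have hd5 := hp.h5
  have hε := hp.h1
  have ev : ∀ B : ℝ, ∀ᶠ X : ℝ in atTop, B ≤ Real.log X := fun B =>
    Real.tendsto_log_atTop.eventually (eventually_ge_atTop B)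
  filter_upwards [eventually_ge_atTop 8, ev 10, small (Real.log (240 * C)) 4 ε0 hε,
    ev (8 * (1 / δ + 2) * (C + 1)), ev (2 * C), small 0 3 0.0003 (by norm_num), ev 10000] with X h8 hl h3 h4 h5 h6 h7
  have hX : 0 < X := by linarith
  have hl0 : 0 < Real.log X := by linarith
  set l := Real.log X with hldef
  have e1 : X ^ (1/2 + 2 * d) ≤ X ^ (0.51 : ℝ) := Real.rpow_le_rpow_of_exponent_le (by linarith) (by linarith)
  have e2 : (2:ℝ) ≤ X ^ (0.09 : ℝ) := by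
    rw [← Real.log_le_log_iff (by norm_num) (by positivity), Real.log_rpow hX]
    have := Real.log_two_lt_d9; linarith
  have e3 : (4:ℝ) ≤ X ^ (0.51 : ℝ) := by
    rw [← Real.log_le_log_iff (by norm_num) (by positivity), Real.log_rpow hX]
    have := Real.log_two_lt_d9
    have h44 : Real.log 4 = 2 * Real.log 2 := by
      rw [show (4:ℝ) = 2 ^ 2 by norm_num, Real.log_pow]; norm_num
    rw [h44]; linarith
  have e4 : X ^ (0.6 : ℝ) = X ^ (0.51 : ℝ) * X ^ (0.09 : ℝ) := by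
    rw [← Real.rpow_add hX]; norm_num
  have e5 : X ^ (1/2 + 2 * d) + 4 ≤ X ^ (0.6 : ℝ) := by
    rw [e4]; nlinarith
  have e6 : X ^ (0.6 : ℝ) ≤ X := by
    calc X ^ (0.6 : ℝ) ≤ X ^ (1 : ℝ) := Real.rpow_le_rpow_of_exponent_le (by linarith) (by norm_num)
      _ = X := Real.rpow_one _
  refine ⟨h8, hl, by linarith, by linarith, ?_, h4, ?_, ?_⟩
  · rw [← Real.log_le_log_iff (by positivity) (by positivity), Real.log_mul (by positivity) (by positivity),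
      Real.log_pow, Real.log_rpow hX]
    simpa using h3
  · nlinarith
  · have f1 : l ^ 3 ≤ X ^ (0.0003 : ℝ) := by
      rw [← Real.log_le_log_iff (by positivity) (by positivity), Real.log_pow, Real.log_rpow hX]
      simpa using h6
    have f2 : l ^ 3 * X ^ (0.2156 : ℝ) ≤ X ^ (0.2159 : ℝ) := by
      calc l ^ 3 * X ^ (0.2156 : ℝ) ≤ X ^ (0.0003 : ℝ) * X ^ (0.2156 : ℝ) :=
            mul_le_mul_of_nonneg_right f1 (by positivity)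
        _ = X ^ (0.2159 : ℝ) := by rw [← Real.rpow_add hX]; norm_num
    have f3 : X ^ (0.21 + 5 * d) ≤ X ^ (0.2159 : ℝ) := Real.rpow_le_rpow_of_exponent_le (by linarith) (by linarith)
    have f4 : (2:ℝ) ≤ X ^ (0.0001 : ℝ) := by
      rw [← Real.log_le_log_iff (by norm_num) (by positivity), Real.log_rpow hX]
      have := Real.log_two_lt_d9; linarith
    have f5 : X ^ (0.216 : ℝ) = X ^ (0.2159 : ℝ) * X ^ (0.0001 : ℝ) := by
      rw [← Real.rpow_add hX]; norm_num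
    have f6 : 0 < X ^ (0.2159 : ℝ) := by positivity
    rw [f5]; nlinarith

/-- KC-18 -/
theorem thmC (hB : BadZero) (hN : ThmN) (hA : A9i) (hD : Detect) (hCB : ClassBound) (hS : SplitSpaced) : ThmC := by
  obtain ⟨ε0, X1, e1, e2, hN⟩ := hN
  obtain ⟨C, hC, hA⟩ := hA
  refine ⟨ε0 / 10 ^ 7, by positivity, fun d hd hd1 => ?_⟩
  set δ := ε0 / 10 ^ 7 with hδdef
  have hp : Par ε0 δ d := ⟨e1, e2, hδdef, hd, hd1⟩
  have hδ := hp.dpos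
  have hδ' := hp.dsmall
  obtain ⟨c0, hc0, K1, hB⟩ := hB d hd (by linarith)
  obtain ⟨X2, hD⟩ := hD δ d hδ (by linarith) hd hd1
  obtain ⟨X3, hCB⟩ := hCB ε0 δ d e1 e2 hδdef hd hd1
  refine ⟨c0, hc0, ?_⟩
  have hev : ∀ᶠ X : ℝ in atTop, (X1 ≤ X ∧ X2 ≤ X ∧ X3 ≤ X) ∧
      (8 ≤ X ∧ 10 ≤ Real.log X ∧ X ^ (1/2 + 2 * d) + 4 ≤ X ∧ X ^ (1/2 + 2 * d) + 1 ≤ X ^ (0.6 : ℝ) ∧
      240 * C * Real.log X ^ 4 ≤ X ^ ε0 ∧ 8 * (1 / δ + 2) * (C + 1) ≤ Real.log X ∧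
      2 * (C * Real.log X) ≤ Real.log X ^ 2 ∧
      X ^ (0.21 + 5 * d) + Real.log X ^ 3 * X ^ (0.2156 : ℝ) ≤ X ^ (0.216 : ℝ)) := by
    filter_upwards [eventually_ge_atTop X1, eventually_ge_atTop X2, eventually_ge_atTop X3, large_X hp hC]
      with X a b c h using ⟨⟨a, b, c⟩, h⟩
  have hev2 : ∀ᶠ k : ℕ in atTop, K1 ≤ k ∧ ((X1 ≤ (2:ℝ) ^ k ∧ X2 ≤ (2:ℝ) ^ k ∧ X3 ≤ (2:ℝ) ^ k) ∧
      (8 ≤ (2:ℝ) ^ k ∧ 10 ≤ Real.log ((2:ℝ) ^ k) ∧ ((2:ℝ) ^ k) ^ (1/2 + 2 * d) + 4 ≤ (2:ℝ) ^ k ∧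
      ((2:ℝ) ^ k) ^ (1/2 + 2 * d) + 1 ≤ ((2:ℝ) ^ k) ^ (0.6 : ℝ) ∧
      240 * C * Real.log ((2:ℝ) ^ k) ^ 4 ≤ ((2:ℝ) ^ k) ^ ε0 ∧ 8 * (1 / δ + 2) * (C + 1) ≤ Real.log ((2:ℝ) ^ k) ∧
      2 * (C * Real.log ((2:ℝ) ^ k)) ≤ Real.log ((2:ℝ) ^ k) ^ 2 ∧
      ((2:ℝ) ^ k) ^ (0.21 + 5 * d) + Real.log ((2:ℝ) ^ k) ^ 3 * ((2:ℝ) ^ k) ^ (0.2156 : ℝ) ≤
        ((2:ℝ) ^ k) ^ (0.216 : ℝ))) :=
    (eventually_ge_atTop K1).and ((tendsto_pow_atTop_atTop_of_one_lt (by norm_num : (1:ℝ) < 2)).eventually hev)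
  obtain ⟨K, hK⟩ := eventually_atTop.mp hev2
  refine ⟨K, fun k hk => ?_⟩
  obtain ⟨hk1, ⟨hX1, hX2, hX3⟩, h8, hl, g1, g2, g3, g4, g5, g6⟩ := hK k hk
  obtain ⟨F, c, u, Exc, b1, b2, b3, b4, b5, b6⟩ := hB k hk1
  have hmain := main_count hp hC h8 hl hA (fun F hF => hN _ hX1 F hF) (fun x hx0 hx1 => hD _ x hX2 hx0 hx1)
    (fun x Z c g N U h => hCB _ x Z c g N U hX3 h.hx0 h.hx1 h.hs h.hsp h.hg h.hN0 h.hN1 h.hD h.hc h.hU h.hUs h.hS)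
    hS g1 g2 g3 g4 g5 F c u (2 ^ (k - ec d k)) b1 b2 b3 b4
  set Bd := (Finset.range (2 ^ (k - ec d k))).filter (fun j => (npr k (ec d k) j : ℝ) < c0 * 2 ^ ec d k / k) with hBd
  set Lg := (Finset.range (2 ^ (k - ec d k))).filter (fun j => 1/2 ≤ ‖∑ ρ ∈ F, (mz ρ : ℂ) * c ρ *
      Complex.exp ((ρ - 1) * (u j : ℂ))‖) with hLg
  have hsub : Bd ⊆ Exc ∪ Lg := by
    intro j hj
    rw [hBd, Finset.mem_filter, Finset.mem_range] at hj
    rw [Finset.mem_union]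
    by_cases hE : j ∈ Exc
    · exact Or.inl hE
    · right
      rw [hLg, Finset.mem_filter, Finset.mem_range]
      exact ⟨hj.1, b6 j hj.1 hE hj.2⟩
  have hcard : (Bd.card : ℝ) ≤ Exc.card + Lg.card := by
    exact_mod_cast le_trans (Finset.card_le_card hsub) (Finset.card_union_le _ _)
  have hpow : (2:ℝ) ^ (0.216 * (k:ℝ)) = ((2:ℝ) ^ k) ^ (0.216 : ℝ) := by
    rw [← Real.rpow_natCast, ← Real.rpow_mul (by norm_num)]
    ring_nf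
  rw [hpow]
  linarith

end Pool.Agent.Helper60.KC
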