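import Pool.Agent.Helper26.KC.D5
import Pool.Agent.Helper60.KS.StG

/-!
# Detection of zeros, general height exponent (adapted from helper26's `D5`)
-/

set_option autoImplicit false
set_option maxHeartbeats 4000000
open MeasureTheory Filter Topology Finset

namespace Pool.Agent.Helper60.KC

open Pool.Agent.Helper26.KC Pool.Agent.Helper69.QRH Pool.Agent.Helper60.KS

theorem b1G {ta δ d s0 μ0 Cz L x β γ V : ℝ} {D : ℕ} (hta1 : 1/4 ≤ ta) (hta2 : ta ≤ 1/2) (hδ : 0 < δ) (hδ' : δ ≤ 1 / 1000)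
    (hd : 0 < d) (hd' : d ≤ δ) (hs1 : s0 ≤ 1 / 2) (hμ0 : 0 ≤ μ0) (hμ1 : μ0 ≤ 1)
    (hCz : 0 ≤ Cz) (hL2 : 33792 * Cz / δ ^ 2 ≤ L) (hL1 : 10 ≤ L)
    (hx' : x ≤ 0.4 + δ) (hβ : 1 - x ≤ β)
    (hγ : |γ| ≤ Real.exp ((ta + 2 * d) * L) + 1) (hD : (D : ℝ) ≤ Real.exp (δ * L))
    (hV : V = ((ta + 2 * d) * (μ0 / (1 - x - s0)) + 40 * δ) * L) (hV0 : 0 ≤ V) :
    32 * Cz * (2 + |γ|) ^ μ0 * Real.log (2 + |γ|) * D * Real.exp (1 - (β - s0) * V) / (β - s0) ≤
      1 / 16 := by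
  have hη : 0.099 ≤ 1 - x - s0 := by linarith
  have hη0 : 0 < 1 - x - s0 := by linarith
  have hηV : (1 - x - s0) * V = ((ta + 2 * d) * μ0 + 40 * δ * (1 - x - s0)) * L := by
    rw [hV]
    field_simp
  have hexp1 : 1 ≤ Real.exp ((ta + 2 * d) * L) := Real.one_le_exp (by positivity)
  have h2g : 2 + |γ| ≤ 4 * Real.exp ((ta + 2 * d) * L) := by linarith
  have habs := abs_nonneg γ
  have e1 : (2 + |γ|) ^ μ0 ≤ 4 * Real.exp ((ta + 2 * d) * μ0 * L) := by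
    calc (2 + |γ|) ^ μ0 ≤ (4 * Real.exp ((ta + 2 * d) * L)) ^ μ0 :=
          Real.rpow_le_rpow (by positivity) h2g hμ0
      _ = 4 ^ μ0 * Real.exp ((ta + 2 * d) * L) ^ μ0 :=
          Real.mul_rpow (by norm_num) (Real.exp_pos _).le
      _ = 4 ^ μ0 * Real.exp ((ta + 2 * d) * μ0 * L) := by
          rw [← Real.exp_mul]; congr 2; ring
      _ ≤ 4 ^ (1 : ℝ) * Real.exp ((ta + 2 * d) * μ0 * L) := by
          gcongr
          norm_num
      _ = _ := by rw [Real.rpow_one]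
  have e2 : Real.log (2 + |γ|) ≤ 2 * L := by
    calc Real.log (2 + |γ|) ≤ Real.log (4 * Real.exp ((ta + 2 * d) * L)) :=
          Real.log_le_log (by positivity) h2g
      _ = Real.log 4 + (ta + 2 * d) * L := by
          rw [Real.log_mul (by norm_num) (Real.exp_pos _).ne', Real.log_exp]
      _ ≤ 2 * L := by
          have h4 : Real.log 4 ≤ 3 := by
            have := Real.log_le_sub_one_of_pos (show (0 : ℝ) < 4 by norm_num)
            linarith
          nlinarith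
  have e2' : 0 ≤ Real.log (2 + |γ|) := Real.log_nonneg (by linarith)
  have e3 : Real.exp (1 - (β - s0) * V) ≤
      3 * Real.exp (-(((ta + 2 * d) * μ0 + 3.9 * δ) * L)) := by
    have h1 : ((ta + 2 * d) * μ0 + 3.9 * δ) * L ≤ (β - s0) * V := by
      have h2 : (1 - x - s0) * V ≤ (β - s0) * V := mul_le_mul_of_nonneg_right (by linarith) hV0
      refine le_trans ?_ h2
      rw [hηV]
      apply mul_le_mul_of_nonneg_right _ (by linarith)
      nlinarith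
    calc Real.exp (1 - (β - s0) * V) ≤ Real.exp (1 + -(((ta + 2 * d) * μ0 + 3.9 * δ) * L)) :=
          Real.exp_le_exp.mpr (by linarith)
      _ = Real.exp 1 * Real.exp (-(((ta + 2 * d) * μ0 + 3.9 * δ) * L)) := Real.exp_add _ _
      _ ≤ _ := by
          have := Real.exp_one_lt_d9
          gcongr
          linarith
  have hβs : 0.099 ≤ β - s0 := by linarith
  have e5 : Real.exp ((ta + 2 * d) * μ0 * L) * Real.exp (δ * L) *
      Real.exp (-(((ta + 2 * d) * μ0 + 3.9 * δ) * L)) = Real.exp (-(2.9 * δ * L)) := by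
    rw [← Real.exp_add, ← Real.exp_add]
    congr 1
    ring
  have h6 := b1_aux hCz hδ hL2 (by linarith)
  have hL0 : 0 ≤ L := by linarith
  calc 32 * Cz * (2 + |γ|) ^ μ0 * Real.log (2 + |γ|) * D * Real.exp (1 - (β - s0) * V) / (β - s0)
      ≤ 32 * Cz * (4 * Real.exp ((ta + 2 * d) * μ0 * L)) * (2 * L) * Real.exp (δ * L) *
        (3 * Real.exp (-(((ta + 2 * d) * μ0 + 3.9 * δ) * L))) / (1 / 11) := by
        gcongr
        linarith
    _ = 8448 * Cz * L * (Real.exp ((ta + 2 * d) * μ0 * L) * Real.exp (δ * L) *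
        Real.exp (-(((ta + 2 * d) * μ0 + 3.9 * δ) * L))) := by ring
    _ ≤ 1 / 16 := by rw [e5]; exact h6

theorem coreG {ta δ d s0 μ0 Cz : ℝ} (hta1 : 1/4 ≤ ta) (hta2 : ta ≤ 1/2) (hδ : 0 < δ) (hδ' : δ ≤ 1 / 1000) (hd : 0 < d) (hd' : d ≤ δ)
    (hs0 : 2 / 7 ≤ s0) (hs1 : s0 ≤ 1 / 2) (hμ0 : 0 ≤ μ0) (hμ1 : μ0 ≤ 1) (hCz : 0 ≤ Cz)
    (hz : ∀ τ : ℝ, ‖riemannZeta (s0 + τ * Complex.I)‖ ≤ Cz * (2 + |τ|) ^ μ0 * Real.log (2 + |τ|)) :
    ∃ L0 : ℝ, ∀ L : ℝ, L0 ≤ L → ∀ x : ℝ, 0 < x → x ≤ 0.4 + δ → μ0 / (1 - x - s0) ≤ 1 →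
    ∃ g : ℕ → ℂ, (∀ n, ‖g n‖ ≤ (n.divisors.card : ℝ)) ∧
    ∀ ρ : ℂ, riemannZeta ρ = 0 → 1 - x ≤ ρ.re → L ^ 2 ≤ |ρ.im| →
    |ρ.im| ≤ Real.exp ((ta + 2 * d) * L) + 1 →
    ∃ i : ℕ, Real.exp (δ * L) / 2 ≤ (2 : ℝ) ^ i ∧
      (2 : ℝ) ^ i ≤ Real.exp ((ta * (μ0 / (1 - x - s0)) + 45 * δ) * L) ∧
      1 / (16 * L) ≤ ‖DP g (2 ^ i) 2 ρ‖ := by
  set K : ℝ := 2 + 4 / δ with hK
  have hK2 : 2 ≤ K := by
    have : 0 < 4 / δ := by positivity
    linarith
  refine ⟨max (max 10 (33792 * Cz / δ ^ 2)) (max (2 * (K ^ 2 + 8)) (1 / δ)), ?_⟩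
  intro L hL x hx hx' hκ
  have hL1 : 10 ≤ L := (le_max_left _ _).trans ((le_max_left _ _).trans hL)
  have hL2 : 33792 * Cz / δ ^ 2 ≤ L := (le_max_right _ _).trans ((le_max_left _ _).trans hL)
  have hL3 : 2 * (K ^ 2 + 8) ≤ L := (le_max_left _ _).trans ((le_max_right _ _).trans hL)
  have hL4 : 1 ≤ δ * L := by
    have : 1 / δ ≤ L := (le_max_right _ _).trans ((le_max_right _ _).trans hL)
    rw [div_le_iff₀ hδ] at this
    linarith
  have hη0 : 0 < 1 - x - s0 := by linarith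
  set κ : ℝ := μ0 / (1 - x - s0) with hκdef
  have hκ0 : 0 ≤ κ := by rw [hκdef]; positivity
  set V : ℝ := ((ta + 2 * d) * κ + 40 * δ) * L with hV
  have hL0 : 0 ≤ L := by linarith
  have hV0 : 0 ≤ V := by rw [hV]; positivity
  have hV1 : 40 * (δ * L) ≤ V := by
    rw [hV]
    have : 0 ≤ (ta + 2 * d) * κ * L := by positivity
    nlinarith
  have hVL : V ≤ 0.6 * L := by
    rw [hV]
    apply mul_le_mul_of_nonneg_right _ hL0
    have : (ta + 2 * d) * κ ≤ (ta + 2 * d) * 1 := mul_le_mul_of_nonneg_left hκ (by positivity)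
    linarith
  set D : ℕ := ⌊Real.exp (δ * L)⌋₊ with hD
  have hD1 : 1 ≤ D := by
    rw [hD, Nat.one_le_floor_iff]
    exact Real.one_le_exp (by positivity)
  have hDle : (D : ℝ) ≤ Real.exp (δ * L) := Nat.floor_le (Real.exp_pos _).le
  set g : ℕ → ℂ := fun n => an D n * (Phi (V - Real.log n) : ℂ) with hg
  refine ⟨g, ?_, ?_⟩
  · intro n
    simp only [hg]
    rw [norm_mul, Complex.norm_real, Real.norm_of_nonneg (Phi_nonneg _)]
    have h1 := an_norm_le D n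
    have h2 := Phi_le_one (V - Real.log n)
    have h3 := Phi_nonneg (V - Real.log n)
    have h4 := norm_nonneg (an D n)
    nlinarith
  intro ρ hρ hβ hγ1 hγ2
  have hβ1 : ρ.re ≤ 1 := by
    by_contra h
    push Not at h
    exact riemannZeta_ne_zero_of_one_le_re h.le hρ
  have hρs0 : s0 < ρ.re := by linarith
  have hρ0 : 0 ≤ ρ.re := by linarith
  have hL100 : 100 ≤ L ^ 2 := by nlinarith
  have hγge : 1 ≤ |ρ.im| := by linarith
  have hmel := mellin_bound hμ0 hμ1 hCz hs0 hs1 hz hρ hρs0 hβ1 hγge hV0 D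
  have hB1 := b1G (D := D) hta1 hta2 hδ hδ' hd hd' hs1 hμ0 hμ1 hCz hL2 hL1 hx' hβ hγ2 hDle hV hV0
  have hB2 : 300 * (D * Real.exp (V - ρ.im ^ 2)) ≤ 1 / 16 := by
    have h1 : (L ^ 2) ^ 2 ≤ ρ.im ^ 2 := by
      have := pow_le_pow_left₀ (by positivity) hγ1 2
      rwa [sq_abs] at this
    have h2 : 100 * L ≤ (L ^ 2) ^ 2 := by nlinarith
    have h3 : (D : ℝ) * Real.exp (V - ρ.im ^ 2) ≤ Real.exp (-(98 * L)) := by
      calc (D : ℝ) * Real.exp (V - ρ.im ^ 2) ≤ Real.exp (δ * L) * Real.exp (V - ρ.im ^ 2) := by gcongr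
        _ = Real.exp (δ * L + (V - ρ.im ^ 2)) := (Real.exp_add _ _).symm
        _ ≤ _ := Real.exp_le_exp.mpr (by nlinarith)
    have h4 : Real.exp (-(98 * L)) ≤ 1 / 4800 := by
      rw [Real.exp_neg, ← one_div, div_le_div_iff_of_pos_left one_pos (Real.exp_pos _) (by norm_num)]
      have h5 := Real.quadratic_le_exp_of_nonneg (show (0 : ℝ) ≤ 98 * L by positivity)
      nlinarith
    linarith
  obtain ⟨n, hn1, hn2⟩ := exists_nat_pow_near (x := Real.exp (V + δ * L)) (y := 2)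
    (Real.one_le_exp (by positivity)) (by norm_num)
  have hlogN : V + δ * L ≤ Real.log ((2 ^ (n + 1) : ℕ) : ℝ) := by
    rw [Real.le_log_iff_exp_le (by positivity)]
    push_cast
    exact hn2.le
  have hfin := finite_sum (ρ := ρ) hρ0 (K := K) (V := V) (L1 := δ * L) hK2 (N0 := 2 ^ (n + 1)) D
    (by positivity) hlogN
  have hB3 : (D : ℝ) * (2 * Real.exp (K ^ 2 + 2 * V - (K - 2) * (δ * L))) ≤ 1 / 16 := by
    have h1 : (K - 2) * (δ * L) = 4 * L := by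
      rw [hK]; field_simp; ring
    rw [h1]
    calc (D : ℝ) * (2 * Real.exp (K ^ 2 + 2 * V - 4 * L))
        ≤ Real.exp (δ * L) * (2 * Real.exp (K ^ 2 + 2 * V - 4 * L)) := by gcongr
      _ = 2 * Real.exp (δ * L + (K ^ 2 + 2 * V - 4 * L)) := by rw [Real.exp_add]; ring
      _ ≤ 2 * Real.exp (-(L / 2 + 0)) := by
          gcongr
          nlinarith
      _ ≤ 1 / 16 := by
          rw [Real.exp_neg, ← div_eq_mul_inv, div_le_iff₀ (Real.exp_pos _)]
          have := exp_ge (L / 2 + 0) (by nlinarith [sq_nonneg K])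
          linarith
  have hB4 : 1 - Phi V ≤ 1 / 16 := by
    refine (one_sub_Phi_le 1 le_rfl V).trans ?_
    have h1 : (1 : ℝ) ^ 2 - 1 * V = -(V - 1) := by ring
    rw [h1, Real.exp_neg, ← one_div, div_le_div_iff_of_pos_left one_pos (Real.exp_pos _) (by norm_num)]
    have := exp_ge (V - 1) (by linarith)
    linarith
  have hdy := dyadic g ρ (n + 1)
  have hg1 : g 1 = (Phi V : ℂ) := by
    simp only [hg]
    rw [an_one hD1]
    simp
  -- lower bound for the sum of the blocks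
  have hlow : 1 / 2 < ‖∑ i ∈ range (n + 1), DP g (2 ^ i) 2 ρ‖ := by
    set S : ℂ := ∑ d ∈ Icc 1 D, (ArithmeticFunction.moebius d : ℂ) * (d : ℂ) ^ (-ρ) * In ρ V d with hS
    set T : ℂ := ∑ n ∈ Icc 1 (2 ^ (n + 1)), g n * (n : ℂ) ^ (-ρ) with hT
    have h1 : ‖S‖ ≤ 1 / 16 + 1 / 16 := hmel.trans (add_le_add hB1 hB2)
    have h2 : ‖S - T‖ ≤ 1 / 16 := hfin.trans hB3
    have h3 : ‖T‖ ≤ 3 / 16 := by
      have := norm_sub_norm_le T S
      rw [norm_sub_rev] at this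
      linarith
    have h4 : ∑ i ∈ range (n + 1), DP g (2 ^ i) 2 ρ = T - (Phi V : ℂ) := by
      rw [hdy, hg1]; ring
    rw [h4]
    have h5 := norm_sub_norm_le (Phi V : ℂ) T
    rw [norm_sub_rev, Complex.norm_real, Real.norm_of_nonneg (Phi_nonneg _)] at h5
    linarith
  have hlog2 := Real.log_two_gt_d9
  have hnL : ((n : ℝ) + 1) ≤ 8 * L := by
    have h1 : (n : ℝ) * Real.log 2 ≤ V + δ * L := by
      have h2 := Real.log_le_log (by positivity) hn1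
      rwa [Real.log_pow, Real.log_exp] at h2
    have h2 : (n : ℝ) * (1 / 2) ≤ (n : ℝ) * Real.log 2 :=
      mul_le_mul_of_nonneg_left (by linarith) (Nat.cast_nonneg _)
    nlinarith
  have hex : ∃ i ∈ range (n + 1), 1 / (16 * L) ≤ ‖DP g (2 ^ i) 2 ρ‖ := by
    by_contra hcon
    push Not at hcon
    have h1 : ‖∑ i ∈ range (n + 1), DP g (2 ^ i) 2 ρ‖ ≤ (n + 1 : ℕ) * (1 / (16 * L)) := by
      refine (norm_sum_le _ _).trans ?_
      refine (Finset.sum_le_card_nsmul _ _ _ fun i hi => (hcon i hi).le).trans ?_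
      rw [Finset.card_range, nsmul_eq_mul]
    have h2 : ((n + 1 : ℕ) : ℝ) * (1 / (16 * L)) ≤ 1 / 2 := by
      rw [mul_one_div, div_le_iff₀ (by positivity)]
      push_cast
      linarith
    linarith
  obtain ⟨i, hi, hDP⟩ := hex
  rw [Finset.mem_range] at hi
  refine ⟨i, ?_, ?_, hDP⟩
  · by_contra hcon
    push Not at hcon
    have h1 : 2 * 2 ^ i ≤ D := by
      rw [hD]
      apply Nat.le_floor
      push_cast
      linarith
    have h2 : DP g (2 ^ i) 2 ρ = 0 := by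
      unfold DP
      apply Finset.sum_eq_zero
      intro m hm
      rw [Finset.mem_Ioc] at hm
      have h3 : 1 ≤ 2 ^ i := Nat.one_le_two_pow
      have h4 : an D m = 0 := an_zero (by omega) (by omega)
      simp only [hg]
      rw [h4, zero_mul, zero_mul]
    rw [h2, norm_zero] at hDP
    have : 0 < 1 / (16 * L) := by positivity
    linarith
  · calc (2 : ℝ) ^ i ≤ 2 ^ n := pow_le_pow_right₀ (by norm_num) (by omega)
      _ ≤ Real.exp (V + δ * L) := hn1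
      _ ≤ _ := by
          apply Real.exp_le_exp.mpr
          rw [hV]
          have h1 : 2 * d * κ ≤ 2 * δ * 1 := by
            apply mul_le_mul (by linarith) hκ hκ0 (by linarith)
          have h2 : ((ta + 2 * d) * κ + 40 * δ) + δ ≤ ta * κ + 45 * δ := by nlinarith
          calc ((ta + 2 * d) * κ + 40 * δ) * L + δ * L
              = (((ta + 2 * d) * κ + 40 * δ) + δ) * L := by ring
            _ ≤ _ := mul_le_mul_of_nonneg_right h2 hL0

theorem detectG (h5 : A5) (h7 : A7) : DetectG := by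
  intro ta δ d hta1 hta2 hδ hδ' hd hd'
  obtain ⟨C5, hC5, hA5, _⟩ := h5
  obtain ⟨C7, hC7, hA7⟩ := h7
  obtain ⟨Ca, hCa, ha⟩ := zline (s0 := 1 / 2) (μ0 := 1 / 6) (by norm_num) (by norm_num) hC5
    (fun t ht => by
      have := hA5 t ht
      push_cast
      exact this)
  obtain ⟨Cb, hCb, hb⟩ := zline (s0 := 2 / 7) (μ0 := 2 / 7) (by norm_num) (by norm_num) hC7
    (fun t ht => by
      have := hA7 t ht
      push_cast
      exact this)
  obtain ⟨La, hLa⟩ := coreG hta1 hta2 hδ hδ' hd hd' (s0 := 1 / 2) (μ0 := 1 / 6) (by norm_num) (by norm_num)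
    (by norm_num) (by norm_num) hCa ha
  obtain ⟨Lb, hLb⟩ := coreG hta1 hta2 hδ hδ' hd hd' (s0 := 2 / 7) (μ0 := 2 / 7) (by norm_num) (by norm_num)
    (by norm_num) (by norm_num) hCb hb
  refine ⟨Real.exp (max La Lb), ?_⟩
  intro X x hX hx hx'
  have hX0 : 0 < X := (Real.exp_pos _).trans_le hX
  set L : ℝ := Real.log X with hL
  have hLge : max La Lb ≤ L := by
    rw [hL, Real.le_log_iff_exp_le hX0]; exact hX
  have hpow : ∀ a : ℝ, X ^ a = Real.exp (a * L) := by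
    intro a
    rw [Real.rpow_def_of_pos hX0, mul_comm]
  have hden1 : (0 : ℝ) < 1 - 2 * x := by linarith
  have hden2 : (0 : ℝ) < 5 / 7 - x := by linarith
  have h2le : (2 / 7 : ℝ) / (5 / 7 - x) ≤ 1 := by
    rw [div_le_one hden2]; linarith
  have key : ∀ s0 μ0 : ℝ, yy x = μ0 / (1 - x - s0) →
      (∃ g : ℕ → ℂ, (∀ n, ‖g n‖ ≤ (n.divisors.card : ℝ)) ∧
        ∀ ρ : ℂ, riemannZeta ρ = 0 → 1 - x ≤ ρ.re → L ^ 2 ≤ |ρ.im| →
        |ρ.im| ≤ Real.exp ((ta + 2 * d) * L) + 1 →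
        ∃ i : ℕ, Real.exp (δ * L) / 2 ≤ (2 : ℝ) ^ i ∧
          (2 : ℝ) ^ i ≤ Real.exp ((ta * (μ0 / (1 - x - s0)) + 45 * δ) * L) ∧
          1 / (16 * L) ≤ ‖DP g (2 ^ i) 2 ρ‖) →
      ∃ g : ℕ → ℂ, (∀ n, ‖g n‖ ≤ (n.divisors.card : ℝ)) ∧
        ∀ ρ : ℂ, riemannZeta ρ = 0 → 1 - x ≤ ρ.re → Real.log X ^ 2 ≤ |ρ.im| →
        |ρ.im| ≤ X ^ (ta + 2 * d) + 1 →
        ∃ i : ℕ, X ^ δ / 2 ≤ (2 : ℝ) ^ i ∧ (2 : ℝ) ^ i ≤ X ^ (yy x * ta + 45 * δ) ∧
          1 / (16 * Real.log X) ≤ ‖DP g (2 ^ i) 2 ρ‖ := by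
    intro s0 μ0 hyy ⟨g, hg1, hg2⟩
    refine ⟨g, hg1, ?_⟩
    intro ρ hρ hβ hγ1 hγ2
    rw [hpow] at hγ2
    obtain ⟨i, hi1, hi2, hi3⟩ := hg2 ρ hρ hβ hγ1 hγ2
    refine ⟨i, ?_, ?_, hi3⟩
    · rw [hpow]; exact hi1
    · rw [hpow, hyy, mul_comm (μ0 / (1 - x - s0)) ta]; exact hi2
  rcases le_total ((1/3 : ℝ) / (1 - 2 * x)) ((2/7) / (5/7 - x)) with hle | hle
  · apply key (1 / 2) (1 / 6)
    · unfold yy
      rw [min_eq_left hle]
      rw [div_eq_div_iff hden1.ne' (by linarith)]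
      ring
    · apply hLa L ((le_max_left _ _).trans hLge) x hx hx'
      have : (1 / 6 : ℝ) / (1 - x - 1 / 2) = (1/3) / (1 - 2 * x) := by
        rw [div_eq_div_iff (by linarith) hden1.ne']
        ring
      rw [this]
      exact hle.trans h2le
  · apply key (2 / 7) (2 / 7)
    · unfold yy
      rw [min_eq_right hle]
      congr 1
      ring
    · apply hLb L ((le_max_right _ _).trans hLge) x hx hx'
      have : (1 : ℝ) - x - 2 / 7 = 5 / 7 - x := by ring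
      rw [this]
      exact h2le

end Pool.Agent.Helper60.KC
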