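import Pool.Agent.Helper60.KC.Final
import Pool.Agent.Helper60.KC.ClassBoundG
import Pool.Agent.Helper60.KC.DetectG
import Pool.Agent.Helper60.KG.Final
import Pool.Agent.Helper65.KC.NumericG

/-! The counting theorem for cells of general length, unconditional. -/

set_option autoImplicit false
open Filter Topology
open scoped Classical

namespace Pool.Agent.Helper60.KC
open Pool.Agent.Helper60.KS

theorem inDetectG : DetectG := detectG inA5 (Pool.Agent.Helper1.KSZ.a7_helper60 inA5)

/-- the counting theorem, from the numerical input only -/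
theorem countW_of_numeric {w U κ ρ0 : ℝ} (hw0 : 0 ≤ w) (hw1 : w ≤ 1/4) (hκ : κ * (1/2 - w) = 1)
    (hU1 : 0.21 - 2 * w < U) (hU2 : (1/2 - w) * ρ0 < U) (hN : NumericG κ ρ0) : CountW w U :=
  countW hw0 hw1 hκ hU1 hU2 (Pool.Agent.Helper60.KG.badZeroG hw0 (by linarith)) inThmN inA9i inDetectG
    (classBoundG mvCount huxleyCount sLemma Pool.Agent.Helper4.KC.fourthU Pool.Agent.Helper73.KC.energyG
      Pool.Agent.Helper91.KC.powDP (by linarith) (by linarith) hκ hN)
    Pool.Agent.Helper46.KC.splitSpaced

/-- cells of length `X^(1/2-d)`: at most `X^0.2156` bad ones -/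
theorem count_000 : CountW 0 0.2156 :=
  countW_of_numeric (κ := 2) (ρ0 := 0.431) (by norm_num) (by norm_num) (by norm_num) (by norm_num) (by norm_num)
    Pool.Agent.Helper65.KC.numericZ

/-- cells of length `X^(0.56-d)`: at most `X^0.0905` bad ones -/
theorem count_060 : CountW 0.06 0.0905 :=
  countW_of_numeric (κ := 25/11) (ρ0 := 0.195) (by norm_num) (by norm_num) (by norm_num) (by norm_num) (by norm_num)
    Pool.Agent.Helper65.KC.numericA

/-- cells of length `X^(0.585-d)`: at most `X^0.046` bad ones -/
theorem count_085 : CountW 0.085 0.046 :=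
  countW_of_numeric (κ := 200/83) (ρ0 := 0.11) (by norm_num) (by norm_num) (by norm_num) (by norm_num) (by norm_num)
    Pool.Agent.Helper65.KC.numericB

/-- cells of length `X^(0.6-d)`: at most `X^0.0225` bad ones -/
theorem count_100 : CountW 0.1 0.0225 :=
  countW_of_numeric (κ := 5/2) (ρ0 := 0.055) (by norm_num) (by norm_num) (by norm_num) (by norm_num) (by norm_num)
    Pool.Agent.Helper65.KC.numericC

/-- cells of length `X^(0.615-d)`: no bad ones -/
theorem count_115 : CountW 0.115 (-0.001) :=
  countW_of_numeric (κ := 200/77) (ρ0 := -0.01) (by norm_num) (by norm_num) (by norm_num) (by norm_num) (by norm_num)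
    Pool.Agent.Helper65.KC.numericD

end Pool.Agent.Helper60.KC
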